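import Pool.Agent.Lib.MP_021685_agO.OJ
import Pool.Agent.Lib.MP_021685_agO.OB2

/-! # NB: from the Lie algebra to two spaces of symmetric matrices -/

set_option autoImplicit false

namespace Pool.Agent.Lib.MP_021685_agN

open Module Pool.Agent.Lib.MP_021685_agO

variable {k H : Type*} [Field k] [AddCommGroup H] [Module k H]
  {g : Submodule k (End k H)} {c : End k H → k} {β : H →ₗ[k] H →ₗ[k] k}

/-- The symmetric matrix of an element of degree `1`. -/
def Fp (β : H →ₗ[k] H →ₗ[k] k) {n : ℕ} (b : Fin n → H) : End k H →ₗ[k] Matrix (Fin n) (Fin n) k where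
  toFun X := Matrix.of fun i j => β (X (b j)) (b i)
  map_add' X Y := by
    ext i j
    simp only [Matrix.of_apply, Matrix.add_apply, LinearMap.add_apply, map_add]
  map_smul' a X := by
    ext i j
    simp only [Matrix.of_apply, Matrix.smul_apply, LinearMap.smul_apply, map_smul, RingHom.id_apply]

/-- The symmetric matrix of an element of degree `-1`. -/
def Fm (β : H →ₗ[k] H →ₗ[k] k) {n : ℕ} (w : Fin n → H) : End k H →ₗ[k] Matrix (Fin n) (Fin n) k where
  toFun Z := Matrix.of fun i j => β (w i) (Z (w j))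
  map_add' X Y := by
    ext i j
    simp only [Matrix.of_apply, Matrix.add_apply, LinearMap.add_apply, map_add]
  map_smul' a X := by
    ext i j
    simp only [Matrix.of_apply, Matrix.smul_apply, LinearMap.smul_apply, map_smul, RingHom.id_apply]

theorem Fp_apply {n : ℕ} (b : Fin n → H) (X : End k H) (i j : Fin n) : Fp β b X i j = β (X (b j)) (b i) := rfl

theorem Fm_apply {n : ℕ} (w : Fin n → H) (X : End k H) (i j : Fin n) : Fm β w X i j = β (w i) (X (w j)) := rfl

/-- A basis of the kernel of the idempotent `h` and the dual basis of its image. -/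
structure Bas (h : End k H) (β : H →ₗ[k] H →ₗ[k] k) {n : ℕ} (b w : Fin n → H) : Prop where
  hb : ∀ i, h (b i) = 0
  hw : ∀ i, h (w i) = w i
  bw : ∀ i j, β (w i) (b j) = if i = j then 1 else 0
  eb : ∀ v, h v = 0 → v = ∑ i, β (w i) v • b i
  ew : ∀ v, h v = v → v = ∑ i, β v (b i) • w i

variable {n : ℕ} {b w : Fin n → H} {h : End k H}

theorem exists_bas [FiniteDimensional k H] (hs : IsSympl g c ⊤ β) (hh : IsHodgeElt g c h) :
    ∃ (n : ℕ) (b w : Fin n → H), Bas h β b w := by
  classical
  have h2 : ∀ v, h (h v) = h v := fun v => by rw [← Module.End.mul_apply, hh.2.1]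
  have hinj : Function.Injective β := by
    rw [injective_iff_map_eq_zero]
    intro u hu
    exact hs.nondeg u trivial fun v _ => by rw [hu]; rfl
  have hsurj : Function.Surjective β :=
    (LinearMap.injective_iff_surjective_of_finrank_eq_finrank (Subspace.dual_finrank_eq).symm).1 hinj
  have hmult : ∀ u v, β (h u) v + β u (h v) = β u v := fun u v => by
    rw [hs.mult h hh.1 u trivial v trivial, hh.2.2, one_mul]
  have hmem : ∀ v, (1 - h) v ∈ LinearMap.ker h := fun v => by
    rw [LinearMap.mem_ker, LinearMap.sub_apply, Module.End.one_apply, map_sub, h2, sub_self]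
  let b := finBasis k (LinearMap.ker h)
  let φ : Fin (finrank k (LinearMap.ker h)) → H →ₗ[k] k := fun i =>
    (b.coord i).comp ((1 - h).codRestrict (LinearMap.ker h) hmem)
  choose w hw using fun i => hsurj (φ i)
  have hφ : ∀ i v, β (w i) v = b.repr ⟨(1 - h) v, hmem v⟩ i := fun i v => by rw [hw]; rfl
  have hb : ∀ i, h (b i : H) = 0 := fun i => (b i).2
  have hwh : ∀ i, h (w i) = w i := by
    intro i
    apply hinj
    ext v
    have h3 := hmult (w i) v
    have h4 : β (w i) (h v) = 0 := by
      have h5 : (⟨(1 - h) (h v), hmem (h v)⟩ : LinearMap.ker h) = 0 := by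
        apply Subtype.ext
        change (1 - h) (h v) = 0
        rw [LinearMap.sub_apply, Module.End.one_apply, h2, sub_self]
      rw [hφ, h5, map_zero, Finsupp.zero_apply]
    rw [h4, add_zero] at h3
    exact h3
  have hbw : ∀ i j, β (w i) (b j : H) = if i = j then 1 else 0 := by
    intro i j
    have h5 : (⟨(1 - h) (b j : H), hmem (b j : H)⟩ : LinearMap.ker h) = b j := by
      apply Subtype.ext
      change (1 - h) (b j : H) = b j
      rw [LinearMap.sub_apply, Module.End.one_apply, hb, sub_zero]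
    rw [hφ, h5, b.repr_self, Finsupp.single_apply]
    simp only [eq_comm]
  have heb : ∀ v, h v = 0 → v = ∑ i, β (w i) v • (b i : H) := by
    intro v hv
    have h5 : ∀ i, β (w i) v = b.repr ⟨v, hv⟩ i := by
      intro i
      have h6 : (⟨(1 - h) v, hmem v⟩ : LinearMap.ker h) = ⟨v, hv⟩ := by
        apply Subtype.ext
        change (1 - h) v = v
        rw [LinearMap.sub_apply, Module.End.one_apply, hv, sub_zero]
      rw [hφ, h6]
    have h7 := congrArg Subtype.val (b.sum_repr ⟨v, hv⟩)
    rw [Submodule.coe_sum] at h7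
    simp only [h5]
    exact h7.symm
  refine ⟨_, fun i => (b i : H), w, hb, hwh, hbw, heb, ?_⟩
  intro v hv
  apply hinj
  ext u
  rw [map_sum, LinearMap.sum_apply]
  simp only [map_smul, LinearMap.smul_apply, smul_eq_mul]
  -- split `u`
  have hiso : ∀ x y, h x = x → h y = y → β x y = 0 := by
    intro x y hx hy
    have := hmult x y
    rw [hx, hy] at this
    exact left_eq_add.1 this.symm
  have hu : u = h u + (1 - h) u := by
    rw [LinearMap.sub_apply, Module.End.one_apply]
    abel
  have h8 := heb ((1 - h) u) (hmem u)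
  have e1 : β v u = β v ((1 - h) u) := by
    conv_lhs => rw [hu]
    rw [map_add, hiso v (h u) hv (h2 u), zero_add]
  have e2 : ∀ i, β (w i) u = β (w i) ((1 - h) u) := by
    intro i
    conv_lhs => rw [hu]
    rw [map_add, hiso (w i) (h u) (hwh i) (h2 u), zero_add]
  rw [e1]
  conv_lhs => rw [h8]
  rw [map_sum]
  refine Finset.sum_congr rfl fun i _ => ?_
  rw [map_smul, smul_eq_mul, e2, mul_comm]

/-- The coordinates in the kernel. -/
theorem Bas.sumb (hB : Bas h β b w) (v : Fin n → k) (i : Fin n) : β (w i) (∑ j, v j • b j) = v i := by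
  rw [map_sum]
  simp only [map_smul, hB.bw, smul_eq_mul, mul_ite, mul_one, mul_zero]
  rw [Finset.sum_ite_eq]
  simp

theorem Bas.sumw (hB : Bas h β b w) (v : Fin n → k) (i : Fin n) : β (∑ j, v j • w j) (b i) = v i := by
  rw [map_sum, LinearMap.sum_apply]
  simp only [map_smul, LinearMap.smul_apply, hB.bw, smul_eq_mul, mul_ite, mul_one, mul_zero]
  rw [Finset.sum_ite_eq']
  simp

theorem Bas.mulVec_p (hB : Bas h β b w) {X : End k H} (hX : h * X = X) (v : Fin n → k) :
    X (∑ j, v j • b j) = ∑ i, (Fp β b X).mulVec v i • w i := by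
  have h1 : h (X (∑ j, v j • b j)) = X (∑ j, v j • b j) := by rw [← Module.End.mul_apply, hX]
  rw [hB.ew _ h1]
  refine Finset.sum_congr rfl fun i _ => ?_
  congr 1
  rw [map_sum, map_sum, LinearMap.sum_apply, Matrix.mulVec, dotProduct]
  refine Finset.sum_congr rfl fun j _ => ?_
  rw [map_smul, map_smul, LinearMap.smul_apply, smul_eq_mul, Fp_apply, mul_comm]

theorem Bas.mulVec_m (hB : Bas h β b w) {Z : End k H} (hZ : h * Z = 0) (v : Fin n → k) :
    Z (∑ j, v j • w j) = ∑ i, (Fm β w Z).mulVec v i • b i := by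
  have h1 : h (Z (∑ j, v j • w j)) = 0 := by
    rw [← Module.End.mul_apply, hZ]
    rfl
  rw [hB.eb _ h1]
  refine Finset.sum_congr rfl fun i _ => ?_
  congr 1
  rw [map_sum, map_sum, Matrix.mulVec, dotProduct]
  refine Finset.sum_congr rfl fun j _ => ?_
  rw [map_smul, map_smul, smul_eq_mul, Fm_apply, mul_comm]

theorem Bas.ext_p (hB : Bas h β b w) {M : Matrix (Fin n) (Fin n) k} {X : End k H}
    (hX : ∀ v : Fin n → k, X (∑ j, v j • b j) = ∑ i, M.mulVec v i • w i) : M = Fp β b X := by
  ext i j
  have h1 := hX (Pi.single j 1)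
  rw [Matrix.mulVec_single_one] at h1
  have h2 : ∑ l, (Pi.single j (1 : k) : Fin n → k) l • b l = b j := by
    rw [Finset.sum_eq_single j]
    · rw [Pi.single_eq_same, one_smul]
    · intro l _ hl
      rw [Pi.single_eq_of_ne hl, zero_smul]
    · intro hj
      exact absurd (Finset.mem_univ j) hj
  rw [h2] at h1
  rw [Fp_apply, h1, hB.sumw]
  rfl

theorem Bas.ext_m (hB : Bas h β b w) {M : Matrix (Fin n) (Fin n) k} {Z : End k H}
    (hZ : ∀ v : Fin n → k, Z (∑ j, v j • w j) = ∑ i, M.mulVec v i • b i) : M = Fm β w Z := by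
  ext i j
  have h1 := hZ (Pi.single j 1)
  rw [Matrix.mulVec_single_one] at h1
  have h2 : ∑ l, (Pi.single j (1 : k) : Fin n → k) l • w l = w j := by
    rw [Finset.sum_eq_single j]
    · rw [Pi.single_eq_same, one_smul]
    · intro l _ hl
      rw [Pi.single_eq_of_ne hl, zero_smul]
    · intro hj
      exact absurd (Finset.mem_univ j) hj
  rw [h2] at h1
  rw [Fm_apply, h1, hB.sumb]
  rfl

theorem Bas.tri_p (hB : Bas h β b w) {X Z Y : End k H} (hX : X ∈ gp g h) (hZ : Z ∈ gm g h) (hY : Y ∈ gp g h) :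
    Fp β b X * Fm β w Z * Fp β b Y = Fp β b (X * Z * Y) := by
  apply hB.ext_p
  intro v
  rw [Module.End.mul_apply, Module.End.mul_apply, hB.mulVec_p (mem_gp.1 hY).2.1, hB.mulVec_m (mem_gm.1 hZ).2.2,
    hB.mulVec_p (mem_gp.1 hX).2.1]
  simp only [Matrix.mulVec_mulVec, Matrix.mul_assoc]

theorem Bas.tri_m (hB : Bas h β b w) {X Z Y : End k H} (hX : X ∈ gm g h) (hZ : Z ∈ gp g h) (hY : Y ∈ gm g h) :
    Fm β w X * Fp β b Z * Fm β w Y = Fm β w (X * Z * Y) := by
  apply hB.ext_m
  intro v
  rw [Module.End.mul_apply, Module.End.mul_apply, hB.mulVec_m (mem_gm.1 hY).2.2, hB.mulVec_p (mem_gp.1 hZ).2.1,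
    hB.mulVec_m (mem_gm.1 hX).2.2]
  simp only [Matrix.mulVec_mulVec, Matrix.mul_assoc]

/-- The two products in the kernel of `h`. -/
theorem Bas.mul_mp (hB : Bas h β b w) {X Z : End k H} (hX : X ∈ gp g h) (hZ : Z ∈ gm g h) (v : Fin n → k) :
    (Z * X) (∑ j, v j • b j) = ∑ i, (Fm β w Z * Fp β b X).mulVec v i • b i := by
  rw [Module.End.mul_apply, hB.mulVec_p (mem_gp.1 hX).2.1, hB.mulVec_m (mem_gm.1 hZ).2.2]
  simp only [Matrix.mulVec_mulVec]

theorem Bas.trace (hB : Bas h β b w) [FiniteDimensional k H] (h2 : h * h = h) {X Z : End k H}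
    (hX : X ∈ gp g h) (hZ : Z ∈ gm g h) :
    (Fp β b X * Fm β w Z).trace = LinearMap.trace k H (X * Z) := by
  have h1 : Z * X = ∑ j, (LinearMap.smulRight ((β (w j)).comp (1 - h)) ((Z * X) (b j)) : End k H) := by
    ext v
    have e1 : (Z * X) v = (Z * X) ((1 - h) v) := by
      rw [LinearMap.sub_apply, Module.End.one_apply, map_sub, ← Module.End.mul_apply (Z * X) h, mul_assoc,
        (mem_gp.1 hX).2.2, mul_zero, LinearMap.zero_apply, sub_zero]
    have e2 : h ((1 - h) v) = 0 := by
      rw [LinearMap.sub_apply, Module.End.one_apply, map_sub, ← Module.End.mul_apply h h, h2, sub_self]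
    rw [e1]
    conv_lhs => rw [hB.eb _ e2]
    rw [map_sum, LinearMap.sum_apply]
    refine Finset.sum_congr rfl fun j _ => ?_
    rw [map_smul, LinearMap.smulRight_apply, LinearMap.comp_apply]
  have h3 : ∀ j, (Z * X) (b j) = ∑ i, (Fm β w Z * Fp β b X) i j • b i := by
    intro j
    have h4 := hB.mul_mp hX hZ (Pi.single j 1)
    rw [Matrix.mulVec_single_one] at h4
    have h5 : ∑ l, (Pi.single j (1 : k) : Fin n → k) l • b l = b j := by
      rw [Finset.sum_eq_single j]
      · rw [Pi.single_eq_same, one_smul]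
      · intro l _ hl
        rw [Pi.single_eq_of_ne hl, zero_smul]
      · intro hj
        exact absurd (Finset.mem_univ j) hj
    rw [h5] at h4
    exact h4
  rw [LinearMap.trace_mul_comm, h1, map_sum, Matrix.trace_mul_comm, Matrix.trace]
  refine Finset.sum_congr rfl fun j _ => ?_
  rw [LinearMap.trace_smulRight, LinearMap.comp_apply, LinearMap.sub_apply, Module.End.one_apply,
    ← Module.End.mul_apply h, ← mul_assoc, (mem_gm.1 hZ).2.2, zero_mul, LinearMap.zero_apply, sub_zero, h3,
    hB.sumb]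
  rfl

/-- The matrix of an element of degree `1` is symmetric. -/
theorem Bas.symm_p [CharZero k] (hs : IsSympl g c ⊤ β) (hst : (⊤ : Submodule k H) ≠ ⊥) (hh : h ∈ g)
    {X : End k H} (hX : X ∈ gp g h) : (Fp β b X).transpose = Fp β b X := by
  ext i j
  rw [Matrix.transpose_apply, Fp_apply, Fp_apply]
  have h1 := hs.mult X (mem_gp.1 hX).1 (b i) trivial (b j) trivial
  rw [hs.c_gp hst (fun _ _ _ _ => trivial) hh hX, zero_mul] at h1
  rw [hs.neg (u := X (b j)) trivial (v := b i) trivial]
  linear_combination h1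

/-- The matrix of an element of degree `-1` is symmetric. -/
theorem Bas.symm_m [CharZero k] (hs : IsSympl g c ⊤ β) (hst : (⊤ : Submodule k H) ≠ ⊥) (hh : h ∈ g)
    {Z : End k H} (hZ : Z ∈ gm g h) : (Fm β w Z).transpose = Fm β w Z := by
  ext i j
  rw [Matrix.transpose_apply, Fm_apply, Fm_apply]
  have h1 := hs.mult Z (mem_gm.1 hZ).1 (w i) trivial (w j) trivial
  rw [hs.c_gm hst (fun _ _ _ _ => trivial) hh hZ, zero_mul] at h1
  rw [hs.neg (u := w j) trivial (v := Z (w i)) trivial]
  linear_combination -h1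

theorem Bas.linw (hB : Bas h β b w) : Function.Injective fun v : Fin n → k => ∑ j, v j • w j := by
  intro v v' hv
  funext i
  have h1 := hB.sumw v i
  have h2 := hB.sumw v' i
  simp only at hv
  rw [← h1, hv, h2]

/-- The rank. -/
theorem Bas.rank_p (hB : Bas h β b w) (h2 : h * h = h) {X : End k H} (hX : X ∈ gp g h) :
    (Fp β b X).rank = finrank k (LinearMap.range X) := by
  let T : (Fin n → k) →ₗ[k] H :=
    { toFun := fun v => ∑ j, v j • w j
      map_add' := fun u v => by
        rw [← Finset.sum_add_distrib]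
        exact Finset.sum_congr rfl fun j _ => by rw [Pi.add_apply, add_smul]
      map_smul' := fun a v => by
        rw [RingHom.id_apply, Finset.smul_sum]
        exact Finset.sum_congr rfl fun j _ => by rw [Pi.smul_apply, smul_eq_mul, mul_smul] }
  have hT : Function.Injective T := hB.linw
  have h3 : (LinearMap.range (Fp β b X).mulVecLin).map T = LinearMap.range X := by
    ext y
    constructor
    · intro hy
      obtain ⟨u, ⟨v, rfl⟩, rfl⟩ := Submodule.mem_map.1 hy
      exact ⟨∑ j, v j • b j, hB.mulVec_p (mem_gp.1 hX).2.1 v⟩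
    · rintro ⟨v, rfl⟩
      have e1 : X v = X ((1 - h) v) := by
        rw [LinearMap.sub_apply, Module.End.one_apply, map_sub, ← Module.End.mul_apply X h, (mem_gp.1 hX).2.2,
          LinearMap.zero_apply, sub_zero]
      have e2 : h ((1 - h) v) = 0 := by
        rw [LinearMap.sub_apply, Module.End.one_apply, map_sub, ← Module.End.mul_apply h h, h2, sub_self]
      refine Submodule.mem_map.2 ⟨(Fp β b X).mulVecLin (fun i => β (w i) ((1 - h) v)), ⟨_, rfl⟩, ?_⟩
      rw [e1]
      conv_rhs => rw [hB.eb _ e2]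
      rw [hB.mulVec_p (mem_gp.1 hX).2.1]
      rfl
  rw [Matrix.rank, ← h3]
  exact (LinearEquiv.finrank_eq (Submodule.equivMapOfInjective T hT _))

end Pool.Agent.Lib.MP_021685_agN
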