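import Pool.Agent.Lib.MP_021685_agN.NB
import Pool.Agent.Lib.MP_021685_agO.OC
import Pool.Agent.Lib.MP_802513_agR.SJ

/-! # NC: elements of rank one -/

set_option autoImplicit false

namespace Pool.Agent.Lib.MP_021685_agN

open Module Pool.Agent.Lib.MP_021685_agO Pool.Agent.Lib.MP_802513_agR

variable {k H : Type*} [Field k] [AddCommGroup H] [Module k H]
  {g : Submodule k (End k H)} {c : End k H → k} {β : H →ₗ[k] H →ₗ[k] k}
  {n : ℕ} {b w : Fin n → H} {h : End k H}

theorem Bas.card (hB : Bas h β b w) (h2 : h * h = h) : finrank k H = 2 * n := by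
  let L : H →ₗ[k] (Fin n → k) × (Fin n → k) :=
    { toFun := fun v => (fun i => β (w i) ((1 - h) v), fun i => β (h v) (b i))
      map_add' := fun u v => by
        ext i
        · simp only [map_add, Prod.fst_add, Pi.add_apply]
        · simp only [map_add, LinearMap.add_apply, Prod.snd_add, Pi.add_apply]
      map_smul' := fun a v => by
        ext i
        · simp only [map_smul, Prod.smul_fst, Pi.smul_apply, RingHom.id_apply]
        · simp only [map_smul, LinearMap.smul_apply, Prod.smul_snd, Pi.smul_apply, RingHom.id_apply] }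
  have e2 : ∀ v, h ((1 - h) v) = 0 := fun v => by
    rw [LinearMap.sub_apply, Module.End.one_apply, map_sub, ← Module.End.mul_apply h h, h2, sub_self]
  have e3 : ∀ v, h (h v) = h v := fun v => by rw [← Module.End.mul_apply, h2]
  have hL : Function.Bijective L := by
    constructor
    · rw [injective_iff_map_eq_zero]
      intro v hv
      have h3 : ∀ i, β (w i) ((1 - h) v) = 0 := fun i => congrFun (congrArg Prod.fst hv) i
      have h4 : ∀ i, β (h v) (b i) = 0 := fun i => congrFun (congrArg Prod.snd hv) i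
      have h5 : (1 - h) v = 0 := by
        rw [hB.eb _ (e2 v)]
        exact Finset.sum_eq_zero fun i _ => by rw [h3, zero_smul]
      have h6 : h v = 0 := by
        rw [hB.ew _ (e3 v)]
        exact Finset.sum_eq_zero fun i _ => by rw [h4, zero_smul]
      rw [LinearMap.sub_apply, Module.End.one_apply, h6, sub_zero] at h5
      exact h5
    · rintro ⟨x, y⟩
      refine ⟨∑ j, x j • b j + ∑ j, y j • w j, ?_⟩
      have h3 : h (∑ j, x j • b j + ∑ j, y j • w j) = ∑ j, y j • w j := by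
        rw [map_add, map_sum, map_sum]
        simp only [map_smul, hB.hb, hB.hw, smul_zero, Finset.sum_const_zero, zero_add]
      have h4 : (1 - h) (∑ j, x j • b j + ∑ j, y j • w j) = ∑ j, x j • b j := by
        rw [LinearMap.sub_apply, Module.End.one_apply, h3, add_sub_cancel_right]
      refine Prod.ext ?_ ?_
      · funext i
        change β (w i) ((1 - h) (∑ j, x j • b j + ∑ j, y j • w j)) = x i
        rw [h4, hB.sumb]
      · funext i
        change β (h (∑ j, x j • b j + ∑ j, y j • w j)) (b i) = y i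
        rw [h3, hB.sumw]
  have h7 := (LinearEquiv.ofBijective L hL).finrank_eq
  rw [h7, finrank_prod, finrank_fin_fun]
  omega

/-- The Jordan pair of symmetric matrices. -/
theorem Bas.jp [CharZero k] [FiniteDimensional k H] (hB : Bas h β b w) (hg : IsGaloisAlg g c)
    (hs : IsSympl g c ⊤ β) (hst : (⊤ : Submodule k H) ≠ ⊥) (hh : IsHodgeElt g c h) :
    JP ((gp g h).map (Fp β b)) ((gm g h).map (Fm β w)) := by
  have hJ := jpair_gm hg hh
  refine ⟨?_, ?_, ?_, ?_, ?_, ?_⟩
  · rintro x hx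
    obtain ⟨X, hX, rfl⟩ := Submodule.mem_map.1 hx
    exact Bas.symm_p hs hst hh.1 hX
  · rintro y hy
    obtain ⟨Z, hZ, rfl⟩ := Submodule.mem_map.1 hy
    exact Bas.symm_m hs hst hh.1 hZ
  · rintro x hx y hy z hz
    obtain ⟨X, hX, rfl⟩ := Submodule.mem_map.1 hx
    obtain ⟨Z, hZ, rfl⟩ := Submodule.mem_map.1 hy
    obtain ⟨Y, hY, rfl⟩ := Submodule.mem_map.1 hz
    rw [hB.tri_p hX hZ hY, hB.tri_p hY hZ hX, ← map_add]
    exact Submodule.mem_map.2 ⟨_, hJ.tri'_add hZ hX hY, rfl⟩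
  · rintro x hx y hy z hz
    obtain ⟨X, hX, rfl⟩ := Submodule.mem_map.1 hx
    obtain ⟨Z, hZ, rfl⟩ := Submodule.mem_map.1 hy
    obtain ⟨Y, hY, rfl⟩ := Submodule.mem_map.1 hz
    rw [hB.tri_m hX hZ hY, hB.tri_m hY hZ hX, ← map_add]
    exact Submodule.mem_map.2 ⟨_, hJ.tri_add hX hY hZ, rfl⟩
  · rintro x hx hx0
    obtain ⟨X, hX, rfl⟩ := Submodule.mem_map.1 hx
    by_contra hcon
    apply hx0
    rw [nd_gp hg hh hX fun Z hZ => ?_, map_zero]
    by_contra hne
    refine hcon ⟨_, Submodule.mem_map.2 ⟨Z, hZ, rfl⟩, ?_⟩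
    rw [hB.trace hh.2.1 hX hZ, LinearMap.trace_mul_comm]
    exact hne
  · rintro y hy hy0
    obtain ⟨Z, hZ, rfl⟩ := Submodule.mem_map.1 hy
    by_contra hcon
    apply hy0
    rw [nd_gm hg hh hZ fun X hX => ?_, map_zero]
    by_contra hne
    refine hcon ⟨_, Submodule.mem_map.2 ⟨X, hX, rfl⟩, ?_⟩
    rw [hB.trace hh.2.1 hX hZ, LinearMap.trace_mul_comm]
    exact hne

/-- Irreducibility. -/
theorem Bas.irr [CharZero k] (hB : Bas h β b w)
    (hirr : ∀ U : Submodule k H, (∀ X ∈ gp g h, ∀ u ∈ U, X u ∈ U) → (∀ Z ∈ gm g h, ∀ u ∈ U, Z u ∈ U) →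
      U = ⊥ ∨ U = ⊤) :
    Irr ((gp g h).map (Fp β b)) ((gm g h).map (Fm β w)) := by
  intro M hM
  let T : (Fin n → k) →ₗ[k] H :=
    { toFun := fun v => ∑ j, v j • w j
      map_add' := fun u v => by
        rw [← Finset.sum_add_distrib]
        exact Finset.sum_congr rfl fun j _ => by rw [Pi.add_apply, add_smul]
      map_smul' := fun a v => by
        rw [RingHom.id_apply, Finset.smul_sum]
        exact Finset.sum_congr rfl fun j _ => by rw [Pi.smul_apply, smul_eq_mul, mul_smul] }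
  have hTh : ∀ v, h (T v) = T v := by
    intro v
    change h (∑ j, v j • w j) = ∑ j, v j • w j
    rw [map_sum]
    exact Finset.sum_congr rfl fun j _ => by rw [map_smul, hB.hw]
  -- the submodule `T M + gm (T M)`
  let U : Submodule k H := M.map T ⊔ Submodule.span k {u | ∃ Z ∈ gm g h, ∃ v ∈ M, u = Z (T v)}
  have hstP : ∀ X ∈ gp g h, ∀ u ∈ U, X u ∈ U := by
    intro X hX
    change U ≤ U.comap X
    refine sup_le ?_ (Submodule.span_le.2 ?_)
    · rintro u hu
      obtain ⟨v, hv, rfl⟩ := Submodule.mem_map.1 hu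
      rw [Submodule.mem_comap, ← hTh, ← Module.End.mul_apply, (mem_gp.1 hX).2.2]
      exact U.zero_mem
    · rintro u ⟨Z, hZ, v, hv, rfl⟩
      rw [SetLike.mem_coe, Submodule.mem_comap]
      refine Submodule.mem_sup_left (Submodule.mem_map.2 ⟨(Fp β b X * Fm β w Z).mulVec v, ?_, ?_⟩)
      · exact hM _ (Submodule.mem_map.2 ⟨X, hX, rfl⟩) _ (Submodule.mem_map.2 ⟨Z, hZ, rfl⟩) v hv
      · change ∑ j, (Fp β b X * Fm β w Z).mulVec v j • w j = X (Z (∑ j, v j • w j))
        rw [hB.mulVec_m (mem_gm.1 hZ).2.2, hB.mulVec_p (mem_gp.1 hX).2.1]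
        simp only [Matrix.mulVec_mulVec]
  have hstM : ∀ Z ∈ gm g h, ∀ u ∈ U, Z u ∈ U := by
    intro Z hZ
    change U ≤ U.comap Z
    refine sup_le ?_ (Submodule.span_le.2 ?_)
    · rintro u hu
      obtain ⟨v, hv, rfl⟩ := Submodule.mem_map.1 hu
      rw [Submodule.mem_comap]
      exact Submodule.mem_sup_right (Submodule.subset_span ⟨Z, hZ, v, hv, rfl⟩)
    · rintro u ⟨Z', hZ', v, hv, rfl⟩
      rw [SetLike.mem_coe, Submodule.mem_comap, ← Module.End.mul_apply]
      have e1 : Z * Z' = 0 := by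
        calc Z * Z' = Z * h * Z' := by rw [(mem_gm.1 hZ).2.1]
          _ = 0 := by rw [mul_assoc, (mem_gm.1 hZ').2.2, mul_zero]
      rw [e1]
      exact U.zero_mem
  -- the part of `U` in the image of `h`
  have hU : ∀ v, T v ∈ U → v ∈ M := by
    intro v hv
    obtain ⟨u1, hu1, u2, hu2, hu⟩ := Submodule.mem_sup.1 hv
    obtain ⟨v', hv', rfl⟩ := Submodule.mem_map.1 hu1
    have e1 : h u2 = 0 := by
      have : Submodule.span k {u | ∃ Z ∈ gm g h, ∃ v ∈ M, u = Z (T v)} ≤ LinearMap.ker h := by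
        refine Submodule.span_le.2 ?_
        rintro u ⟨Z', hZ', v, hv, rfl⟩
        rw [SetLike.mem_coe, LinearMap.mem_ker, ← Module.End.mul_apply, (mem_gm.1 hZ').2.2]
        rfl
      exact this hu2
    have e2 : T v = T v' := by
      rw [← hTh v, ← hu, map_add, e1, hTh, add_zero]
    have e3 : v = v' := hB.linw e2
    rw [e3]
    exact hv'
  rcases hirr U hstP hstM with h0 | h0
  · left
    rw [eq_bot_iff]
    intro v hv
    have h1 : T v ∈ U := Submodule.mem_sup_left (Submodule.mem_map.2 ⟨v, hv, rfl⟩)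
    rw [h0, Submodule.mem_bot] at h1
    rw [Submodule.mem_bot]
    exact hB.linw (h1.trans (map_zero T).symm)
  · right
    rw [eq_top_iff]
    intro v _
    exact hU v (by rw [h0]; trivial)

/-- An element of rank one of degree `1`. -/
theorem exists_rank_one_gp [CharZero k] [IsAlgClosed k] [FiniteDimensional k H] (hg : IsGaloisAlg g c)
    (hs : IsSympl g c ⊤ β) (hst : (⊤ : Submodule k H) ≠ ⊥) (hh : IsHodgeElt g c h)
    (hirr : ∀ U : Submodule k H, (∀ X ∈ gp g h, ∀ u ∈ U, X u ∈ U) → (∀ Z ∈ gm g h, ∀ u ∈ U, Z u ∈ U) →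
      U = ⊥ ∨ U = ⊤) {X : End k H} (hX : X ∈ gp g h) (hX0 : X ≠ 0)
    (hr : 4 * finrank k (LinearMap.range X) < finrank k H) :
    ∃ X' ∈ gp g h, finrank k (LinearMap.range X') = 1 := by
  classical
  obtain ⟨n, b, w, hB⟩ := exists_bas hs hh
  have hJ := hB.jp hg hs hst hh
  have hI := hB.irr hirr
  have hc := hB.card hh.2.1
  have hx0 : Fp β b X ≠ 0 := by
    intro h0
    apply hX0
    ext v
    have e1 : X v = X ((1 - h) v) := by
      rw [LinearMap.sub_apply, Module.End.one_apply, map_sub, ← Module.End.mul_apply X h, (mem_gp.1 hX).2.2,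
        LinearMap.zero_apply, sub_zero]
    have e2 : h ((1 - h) v) = 0 := by
      rw [LinearMap.sub_apply, Module.End.one_apply, map_sub, ← Module.End.mul_apply h h, hh.2.1, sub_self]
    rw [e1, hB.eb _ e2, hB.mulVec_p (mem_gp.1 hX).2.1, h0]
    simp
  have hr' : 2 * (Fp β b X).rank < Fintype.card (Fin n) := by
    rw [hB.rank_p hh.2.1 hX, Fintype.card_fin]
    omega
  obtain ⟨e, he, he1⟩ := exists_rank_one hJ hI (Submodule.mem_map.2 ⟨X, hX, rfl⟩) hx0 hr'
  obtain ⟨X', hX', rfl⟩ := Submodule.mem_map.1 he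
  exact ⟨X', hX', by rw [← hB.rank_p hh.2.1 hX', he1]⟩

/-- The same, starting from an element of degree `-1`. -/
theorem exists_rank_one_gm [CharZero k] [IsAlgClosed k] [FiniteDimensional k H] (hg : IsGaloisAlg g c)
    (hs : IsSympl g c ⊤ β) (hst : (⊤ : Submodule k H) ≠ ⊥) (hh : IsHodgeElt g c h)
    (hirr : ∀ U : Submodule k H, (∀ X ∈ gp g h, ∀ u ∈ U, X u ∈ U) → (∀ Z ∈ gm g h, ∀ u ∈ U, Z u ∈ U) →
      U = ⊥ ∨ U = ⊤) {Z : End k H} (hZ : Z ∈ gm g h) (hZ0 : Z ≠ 0)
    (hr : 4 * finrank k (LinearMap.range Z) < finrank k H) :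
    ∃ X' ∈ gp g h, finrank k (LinearMap.range X') = 1 := by
  have hJ := jpair_gm hg hh
  obtain ⟨Y, hY, hne⟩ : ∃ Y ∈ gp g h, LinearMap.trace k H (Z * Y) ≠ 0 := by
    by_contra hcon
    refine hZ0 (hJ.nd Z hZ fun Y hY => ?_)
    by_contra hne
    exact hcon ⟨Y, hY, hne⟩
  have h1 := hJ.tri' Z hZ Y hY
  refine exists_rank_one_gp hg hs hst hh hirr h1 ?_ (lt_of_le_of_lt ?_ hr)
  · intro h0
    apply hne
    have h2 : IsNilpotent (Z * Y) := ⟨2, by rw [pow_two, mul_assoc, ← mul_assoc Y, h0, mul_zero]⟩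
    exact (LinearMap.isNilpotent_trace_of_isNilpotent h2).eq_zero
  · refine Nat.mul_le_mul_left 4 ?_
    have h2 : LinearMap.range (Y * Z * Y) ≤ (LinearMap.range Z).map Y := by
      rintro x ⟨v, rfl⟩
      exact Submodule.mem_map.2 ⟨Z (Y v), ⟨Y v, rfl⟩, rfl⟩
    exact (Submodule.finrank_mono h2).trans (Submodule.finrank_map_le _ _)

end Pool.Agent.Lib.MP_021685_agN
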