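import Pool.Agent.Lib.MP_021685_agN.NC
import Pool.Agent.Lib.MP_802513_agY.XJ

/-! # NC3: elements of rank one, if the rank is not exceptional -/

set_option autoImplicit false

namespace Pool.Agent.Lib.MP_021685_agN

open Module Pool.Agent.Lib.MP_021685_agO Pool.Agent.Lib.MP_802513_agR Pool.Agent.Lib.MP_802513_agY

variable {k H : Type*} [Field k] [AddCommGroup H] [Module k H]
  {g : Submodule k (End k H)} {c : End k H → k} {β : H →ₗ[k] H →ₗ[k] k}
  {n : ℕ} {b w : Fin n → H} {h : End k H}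

/-- The rank of the symmetric matrix of an element of degree `-1`. -/
theorem Bas.rank_m (hB : Bas h β b w) (h2 : h * h = h) {Z : End k H} (hZ : Z ∈ gm g h) :
    (Fm β w Z).rank = finrank k (LinearMap.range Z) := by
  let T : (Fin n → k) →ₗ[k] H :=
    { toFun := fun v => ∑ j, v j • b j
      map_add' := fun u v => by
        rw [← Finset.sum_add_distrib]
        exact Finset.sum_congr rfl fun j _ => by rw [Pi.add_apply, add_smul]
      map_smul' := fun a v => by
        rw [RingHom.id_apply, Finset.smul_sum]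
        exact Finset.sum_congr rfl fun j _ => by rw [Pi.smul_apply, smul_eq_mul, mul_smul] }
  have hT : Function.Injective T := by
    intro v v' hv
    funext i
    have h1 := hB.sumb v i
    have h2 := hB.sumb v' i
    have hv' : ∑ j, v j • b j = ∑ j, v' j • b j := hv
    rw [← h1, hv', h2]
  have h3 : (LinearMap.range (Fm β w Z).mulVecLin).map T = LinearMap.range Z := by
    ext y
    constructor
    · intro hy
      obtain ⟨u, ⟨v, rfl⟩, rfl⟩ := Submodule.mem_map.1 hy
      exact ⟨∑ j, v j • w j, hB.mulVec_m (mem_gm.1 hZ).2.2 v⟩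
    · rintro ⟨v, rfl⟩
      have e1 : Z v = Z (h v) := by
        rw [← Module.End.mul_apply, (mem_gm.1 hZ).2.1]
      have e2 : h (h v) = h v := by rw [← Module.End.mul_apply, h2]
      refine Submodule.mem_map.2 ⟨(Fm β w Z).mulVecLin (fun i => β (h v) (b i)), ⟨_, rfl⟩, ?_⟩
      rw [e1]
      conv_rhs => rw [hB.ew _ e2]
      rw [hB.mulVec_m (mem_gm.1 hZ).2.2]
      rfl
  rw [Matrix.rank, ← h3]
  exact (LinearEquiv.finrank_eq (Submodule.equivMapOfInjective T hT _))

/-- An element of rank one of degree `1`, starting from an element of degree `1` whose rank is not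
exceptional. -/
theorem exists_rank_one_gp2 [CharZero k] [IsAlgClosed k] [FiniteDimensional k H] (hg : IsGaloisAlg g c)
    (hs : IsSympl g c ⊤ β) (hst : (⊤ : Submodule k H) ≠ ⊥) (hh : IsHodgeElt g c h)
    (hirr : ∀ U : Submodule k H, (∀ X ∈ gp g h, ∀ u ∈ U, X u ∈ U) → (∀ Z ∈ gm g h, ∀ u ∈ U, Z u ∈ U) →
      U = ⊥ ∨ U = ⊤) {X : End k H} (hX : X ∈ gp g h) (hX0 : X ≠ 0)
    (hr : ¬ IsExc (finrank k H / 2) (finrank k (LinearMap.range X))) :
    ∃ X' ∈ gp g h, finrank k (LinearMap.range X') = 1 := by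
  classical
  obtain ⟨n, b, w, hB⟩ := exists_bas hs hh
  have hJ := hB.jp hg hs hst hh
  have hI := hB.irr hirr
  have hc := hB.card hh.2.1
  have hx0 : Fp β b X ≠ 0 := by
    intro h0
    apply hX0
    ext v
    have e1 : X v = X ((1 - h) v) := by
      rw [LinearMap.sub_apply, Module.End.one_apply, map_sub, ← Module.End.mul_apply X h, (mem_gp.1 hX).2.2,
        LinearMap.zero_apply, sub_zero]
    have e2 : h ((1 - h) v) = 0 := by
      rw [LinearMap.sub_apply, Module.End.one_apply, map_sub, ← Module.End.mul_apply h h, hh.2.1, sub_self]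
    rw [e1, hB.eb _ e2, hB.mulVec_p (mem_gp.1 hX).2.1, h0]
    simp
  have hr' : ¬ IsExc (Fintype.card (Fin n)) (Fp β b X).rank := by
    rw [hB.rank_p hh.2.1 hX, Fintype.card_fin]
    rw [hc, Nat.mul_div_cancel_left _ (by norm_num : 0 < 2)] at hr
    exact hr
  obtain ⟨e, he, he1⟩ := exists_rank_one2 hJ hI (Submodule.mem_map.2 ⟨X, hX, rfl⟩) hx0 hr'
  obtain ⟨X', hX', rfl⟩ := Submodule.mem_map.1 he
  exact ⟨X', hX', by rw [← hB.rank_p hh.2.1 hX', he1]⟩

/-- An element of rank one of degree `1`, starting from an element of degree `-1` whose rank is not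
exceptional. -/
theorem exists_rank_one_gm2 [CharZero k] [IsAlgClosed k] [FiniteDimensional k H] (hg : IsGaloisAlg g c)
    (hs : IsSympl g c ⊤ β) (hst : (⊤ : Submodule k H) ≠ ⊥) (hh : IsHodgeElt g c h)
    (hirr : ∀ U : Submodule k H, (∀ X ∈ gp g h, ∀ u ∈ U, X u ∈ U) → (∀ Z ∈ gm g h, ∀ u ∈ U, Z u ∈ U) →
      U = ⊥ ∨ U = ⊤) {Z : End k H} (hZ : Z ∈ gm g h) (hZ0 : Z ≠ 0)
    (hr : ¬ IsExc (finrank k H / 2) (finrank k (LinearMap.range Z))) :
    ∃ X' ∈ gp g h, finrank k (LinearMap.range X') = 1 := by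
  classical
  obtain ⟨n, b, w, hB⟩ := exists_bas hs hh
  have hJ := hB.jp hg hs hst hh
  have hI := hB.irr hirr
  have hc := hB.card hh.2.1
  have hx0 : Fm β w Z ≠ 0 := by
    intro h0
    apply hZ0
    ext v
    have e1 : Z v = Z (h v) := by
      rw [← Module.End.mul_apply, (mem_gm.1 hZ).2.1]
    have e2 : h (h v) = h v := by rw [← Module.End.mul_apply, hh.2.1]
    rw [e1, hB.ew _ e2, hB.mulVec_m (mem_gm.1 hZ).2.2, h0]
    simp
  have hr' : ¬ IsExc (Fintype.card (Fin n)) (Fm β w Z).rank := by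
    rw [hB.rank_m hh.2.1 hZ, Fintype.card_fin]
    rw [hc, Nat.mul_div_cancel_left _ (by norm_num : 0 < 2)] at hr
    exact hr
  obtain ⟨e, he, he1⟩ := exists_rank_one2 hJ.symm (irr_of_irr' hJ.symm hI) (Submodule.mem_map.2 ⟨Z, hZ, rfl⟩) hx0 hr'
  -- from `gm` to `gp`
  have hn0 : e ≠ 0 := by
    rintro rfl
    rw [Matrix.rank_zero] at he1
    exact zero_ne_one he1
  obtain ⟨x, hx, hxe⟩ := hJ.ndQ e he hn0
  have h1 := hJ.sq_mem hx he
  have h2 : x * e * x ≠ 0 := by
    intro h0
    apply hxe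
    have h3 : IsNilpotent (x * e) := ⟨2, by rw [pow_two, ← mul_assoc, h0, zero_mul]⟩
    exact (Matrix.isNilpotent_trace_of_isNilpotent h3).eq_zero
  obtain ⟨X', hX', hXX⟩ := Submodule.mem_map.1 h1
  refine ⟨X', hX', ?_⟩
  rw [← hB.rank_p hh.2.1 hX', hXX]
  apply le_antisymm
  · calc (x * e * x).rank ≤ (x * e).rank := Matrix.rank_mul_le_left _ _
      _ ≤ e.rank := Matrix.rank_mul_le_right _ _
      _ = 1 := he1
  · rw [Nat.one_le_iff_ne_zero]
    intro h0
    apply h2
    have h4 : LinearMap.range (x * e * x).mulVecLin = ⊥ := Submodule.finrank_eq_zero.1 h0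
    ext i j
    have h5 : (x * e * x).mulVec (Pi.single j 1) = 0 := LinearMap.congr_fun (LinearMap.range_eq_bot.1 h4) _
    rw [Matrix.mulVec_single_one] at h5
    exact congrFun h5 i

end Pool.Agent.Lib.MP_021685_agN
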