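import Pool.Agent.Lib.MP_021685_agN.NDefs
import Pool.Agent.Lib.MP_021685_agN.NC
import Pool.Agent.Lib.MP_021685_agZ.ZQ
import Pool.Agent.Lib.MP_021685_agO.OW2
import Pool.Agent.Lib.MP_802513_agR.TE

/-! # ND: a subspace of small rank is odd -/

set_option autoImplicit false

namespace Pool.Agent.Lib.MP_021685_agN

open Module Pool.Agent.Lib.MP_021685_agO Pool.Agent.Lib.MP_802513_agR Pool.Agent.Lib.MP_021685_agZ

variable {k H : Type*} [Field k] [CharZero k] [IsAlgClosed k] [AddCommGroup H] [Module k H]
  [FiniteDimensional k H] {g : Submodule k (End k H)} {c : End k H → k} {V : Submodule k H}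
  {β : H →ₗ[k] H →ₗ[k] k} {n : ℕ}

/-- The Gram matrix. -/
noncomputable def gram (β : H →ₗ[k] H →ₗ[k] k) (b : Basis (Fin n) k V) : Matrix (Fin n) (Fin n) k :=
  Matrix.of fun i j => β (b i) (b j)

theorem gram_apply (b : Basis (Fin n) k V) (i j : Fin n) : gram β b i j = β (b i) (b j) := rfl

theorem mat_unique (b : Basis (Fin n) k V) {X : End k H} {M M' : Matrix (Fin n) (Fin n) k}
    (h : ∀ j, X (b j : H) = ∑ i, M i j • (b i : H)) (h' : ∀ j, X (b j : H) = ∑ i, M' i j • (b i : H)) :
    M = M' := by
  ext i j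
  have h1 : ∑ i, M i j • b i = ∑ i, M' i j • b i := by
    apply Subtype.ext
    rw [Submodule.coe_sum, Submodule.coe_sum]
    simp only [Submodule.coe_smul]
    rw [← h, ← h']
  have h2 := congrArg (fun v => b.repr v i) h1
  simp only [b.repr_sum_self] at h2
  exact h2

/-- The relation of a multiplier. -/
theorem gram_mult (hs : IsSympl g c V β) (b : Basis (Fin n) k V) {X : End k H} (hX : X ∈ g)
    {M : Matrix (Fin n) (Fin n) k} (h : ∀ j, X (b j : H) = ∑ i, M i j • (b i : H)) :
    M.transpose * gram β b + gram β b * M = c X • gram β b := by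
  ext i j
  have h1 := hs.mult X hX (b i) (b i).2 (b j) (b j).2
  rw [h, h] at h1
  rw [Matrix.add_apply, Matrix.mul_apply, Matrix.mul_apply, Matrix.smul_apply, smul_eq_mul, gram_apply, ← h1]
  rw [map_sum, LinearMap.sum_apply, map_sum]
  congr 1
  · exact Finset.sum_congr rfl fun l _ => by
      rw [map_smul, LinearMap.smul_apply, smul_eq_mul, Matrix.transpose_apply, gram_apply]
  · exact Finset.sum_congr rfl fun l _ => by
      rw [map_smul, smul_eq_mul, gram_apply, mul_comm]

/-- The context of the theorem on subalgebras. -/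
theorem ctx_of (hg : IsGaloisAlg g c) (hV : IsSimpleSub g V) (hs : IsSympl g c V β)
    (b : Basis (Fin n) k V) (hb : ∀ i j, ∀ σ : k ≃+* k, σ (β (b i) (b j)) = β (b i) (b j))
    (hQ : IsQSimple g b) {h : End k H} (hh : IsHodgeElt g c h) {Mh : Matrix (Fin n) (Fin n) k}
    (hMh : ∀ j, h (b j : H) = ∑ i, Mh i j • (b i : H)) (hns : ∀ s : k, Mh ≠ s • (1 : Matrix (Fin n) (Fin n) k)) :
    Ctx (mg g b) Mh (gram β b) := by
  have hlie := mg_lie hg.lie hV.2.1 b
  have hmem : Mh ∈ mg g b := ⟨h, hh.1, hMh⟩
  refine ⟨hlie, hQ.1, hmem, ?_, ?_, ?_, ?_, ?_, ?_⟩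
  · refine mat_unique (X := h) b (fun j => ?_) hMh
    rw [← mul_mg b hMh hMh, hh.2.1]
  · intro B hB hBh M hM
    let I : Submodule k (Matrix (Fin n) (Fin n) k) :=
      { carrier := {Y | ∀ σ : k ≃+* k, Y.map σ ∈ B ∧ Y.map σ ∈ mg g b}
        add_mem' := by
          intro X Y hX hY σ
          have e : (X + Y).map σ = X.map σ + Y.map σ := by
            ext i j
            simp
          rw [e]
          exact ⟨B.add_mem (hX σ).1 (hY σ).1, (mg g b).add_mem (hX σ).2 (hY σ).2⟩
        zero_mem' := by
          intro σ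
          have e : (0 : Matrix (Fin n) (Fin n) k).map σ = 0 := by
            ext i j
            simp
          rw [e]
          exact ⟨B.zero_mem, (mg g b).zero_mem⟩
        smul_mem' := by
          intro s X hX σ
          have e : (s • X).map σ = σ s • X.map σ := by
            ext i j
            simp
          rw [e]
          exact ⟨B.smul_mem (hX σ).1 _, (mg g b).smul_mem _ (hX σ).2⟩ }
    have hid : ∀ X : Matrix (Fin n) (Fin n) k, X.map (RingEquiv.refl k) = X := fun X => by
      ext i j
      simp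
    have hI1 : ∀ Y ∈ I, IsMatOn g b Y := fun Y hY => by
      have := (hY (RingEquiv.refl k)).2
      rw [hid] at this
      exact this
    have hI2 : ∀ X, IsMatOn g b X → ∀ Y ∈ I, X * Y - Y * X ∈ I := by
      intro X hX Y hY σ
      have hX' : X.map σ ∈ mg g b := hQ.1 X hX σ
      have e : (X * Y - Y * X).map σ = X.map σ * Y.map σ - Y.map σ * X.map σ := by
        have e1 : (X * Y).map σ = X.map σ * Y.map σ := Matrix.map_mul
        have e2 : (Y * X).map σ = Y.map σ * X.map σ := Matrix.map_mul
        rw [← e1, ← e2]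
        ext i j
        simp only [Matrix.map_apply, Matrix.sub_apply, map_sub]
      rw [e]
      exact ⟨hB _ hX' _ (hY σ).1, hlie _ hX' _ (hY σ).2⟩
    have hI3 : ∀ Y ∈ I, ∀ σ : k ≃+* k, Y.map σ ∈ I := by
      intro Y hY σ τ
      have e : (Y.map σ).map τ = Y.map (σ.trans τ) := by
        ext i j
        simp
      rw [e]
      exact hY _
    have hI4 : Mh ∈ I := fun σ => ⟨hBh σ, hQ.1 Mh hmem σ⟩
    rcases hQ.2 I hI1 hI2 hI3 with h1 | h1
    · obtain ⟨s, hs'⟩ := h1 Mh hI4
      exact absurd hs' (hns s)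
    · refine h1 M fun Y hY u hu => ?_
      have := (hY (RingEquiv.refl k)).1
      rw [hid] at this
      exact hM Y this u hu
  · ext i j
    rw [Matrix.transpose_apply, Matrix.neg_apply, gram_apply, gram_apply]
    exact hs.neg (b j).2 (b i).2
  · rw [isUnit_iff_ne_zero]
    intro h0
    obtain ⟨v, hv0, hv⟩ := Matrix.exists_mulVec_eq_zero_iff.2 h0
    apply hv0
    have h1 : (∑ j, v j • b j : V) = 0 := by
      apply Subtype.ext
      refine hs.nondeg _ (∑ j, v j • b j : V).2 fun w hw => ?_
      have h2 : ∀ w : V, β (w : H) ((∑ j, v j • b j : V) : H) = 0 := by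
        intro w
        have e1 : (w : H) = ∑ i, b.repr w i • (b i : H) := by
          conv_lhs => rw [← b.sum_repr w]
          simp only [Submodule.coe_sum, Submodule.coe_smul]
        rw [e1, map_sum, LinearMap.sum_apply]
        refine Finset.sum_eq_zero fun i _ => ?_
        have h3 := congrFun hv i
        rw [Matrix.mulVec, dotProduct, Pi.zero_apply] at h3
        rw [map_smul, LinearMap.smul_apply, Submodule.coe_sum, map_sum]
        have h4 : ∑ j, β (b i : H) ((v j • b j : V) : H) = 0 := by
          rw [← h3]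
          exact Finset.sum_congr rfl fun j _ => by
            rw [Submodule.coe_smul, map_smul, smul_eq_mul, gram_apply, mul_comm]
        rw [h4, smul_zero]
      rw [hs.neg (∑ j, v j • b j : V).2 hw, h2 ⟨w, hw⟩, neg_zero]
    funext j
    have h2 := congrArg (fun w => b.repr w j) h1
    simp only [b.repr_sum_self, map_zero, Finsupp.zero_apply] at h2
    exact h2
  · intro σ
    ext i j
    rw [Matrix.map_apply, gram_apply]
    exact hb i j σ
  · rintro X ⟨X', hX', hX⟩ hdeg
    have hbr := hg.lie h hh.1 X' hX'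
    have e1 : ∀ j, (h * X' - X' * h) (b j : H) = ∑ i, (Mh * X - X * Mh) i j • (b i : H) := by
      intro j
      rw [LinearMap.sub_apply, mul_mg b hMh hX, mul_mg b hX hMh, ← Finset.sum_sub_distrib]
      exact Finset.sum_congr rfl fun i _ => by rw [Matrix.sub_apply, sub_smul]
    have e2 := gram_mult hs b hbr e1
    rw [hs.c_bracket hV.1 hV.2.1 hh.1 hX' hbr, zero_smul] at e2
    rcases hdeg with hd | hd
    · rw [hd] at e2
      exact e2
    · rw [hd, Matrix.transpose_neg, neg_mul, mul_neg, ← neg_add, neg_eq_zero] at e2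
      exact e2

end Pool.Agent.Lib.MP_021685_agN
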