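import Pool.Agent.Lib.MP_021685_agO.Defs3

/-!
# One place decides: the definition of the subspaces of small rank
-/

set_option autoImplicit false

namespace Pool.Agent.Lib.MP_021685_agN

open Module Pool.Agent.Lib.MP_021685_agO

variable {k H : Type*} [Field k] [AddCommGroup H] [Module k H]

/-- `M` is the matrix of an element of `g` on the subspace `V` with the basis `b`. -/
def IsMatOn (g : Submodule k (End k H)) {V : Submodule k H} {n : ℕ} (b : Basis (Fin n) k V)
    (M : Matrix (Fin n) (Fin n) k) : Prop :=
  ∃ X ∈ g, ∀ j, X (b j : H) = ∑ i, M i j • (b i : H)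

/-- The matrices of the elements of `g` on `V` form a space which is stable under the automorphisms `σ` of the
field `k` (acting on the entries), and every ideal of this Lie algebra of matrices which is stable under these
automorphisms consists of scalar matrices or is irreducible on `k ^ n`. (This holds, in a basis of `V_Q`, if
`g = Lie P ⊗ k` on `V = V_Q ⊗ k`, where `P` is a reductive group over `ℚ` with the representation `V_Q` such
that the proper normal subgroups of `P` over `ℚ` are scalar or contain the derived group, and `V_Q` is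
absolutely irreducible.) -/
def IsQSimple (g : Submodule k (End k H)) {V : Submodule k H} {n : ℕ} (b : Basis (Fin n) k V) : Prop :=
  (∀ M, IsMatOn g b M → ∀ σ : k ≃+* k, IsMatOn g b (M.map σ)) ∧
  ∀ I : Submodule k (Matrix (Fin n) (Fin n) k), (∀ Y ∈ I, IsMatOn g b Y) →
    (∀ X, IsMatOn g b X → ∀ Y ∈ I, X * Y - Y * X ∈ I) →
    (∀ Y ∈ I, ∀ σ : k ≃+* k, Y.map σ ∈ I) →
    (∀ Y ∈ I, ∃ s : k, Y = s • (1 : Matrix (Fin n) (Fin n) k)) ∨
      ∀ U : Submodule k (Fin n → k), (∀ Y ∈ I, ∀ u ∈ U, Y.mulVec u ∈ U) → U = ⊥ ∨ U = ⊤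

/-- The subspace `V` of dimension `n` is simple, it has a symplectic form `β` with multiplier `c` and a basis `b`
such that the values of `β` on `b` are fixed by all the automorphisms of the field `k` and `g` is simple over
`ℚ` on `V` in the sense of `IsQSimple`, and there is `N = (1 - h') h` for two conjugate idempotents `h`, `h'` of
multiplier `1` in `g` of rank `r` on `V` with `0 < 4 r < n` and `r ^ 3 < n ^ 2`. -/
def OddSmall (g : Submodule k (End k H)) (c : End k H → k) (V : Submodule k H) : Prop :=
  IsSimpleSub g V ∧ ∃ (β : H →ₗ[k] H →ₗ[k] k) (n : ℕ) (b : Basis (Fin n) k V) (N : End k H),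
    IsSympl g c V β ∧ (∀ i j, ∀ σ : k ≃+* k, σ (β (b i) (b j)) = β (b i) (b j)) ∧ IsQSimple g b ∧
    IsRelPos g c N ∧ 0 < finrank k (V.map N) ∧ 4 * finrank k (V.map N) < n ∧
    finrank k (V.map N) ^ 3 < n ^ 2

end Pool.Agent.Lib.MP_021685_agN
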