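import Pool.Agent.Lib.MP_021685_agO.Defs3
import Pool.Agent.Lib.MP_802513_agY.XDf

/-!
# One place decides: the definition of the subspaces with an element whose rank is small or not exceptional
-/

set_option autoImplicit false

namespace Pool.Agent.Lib.MP_021685_agN

open Module Pool.Agent.Lib.MP_021685_agO Pool.Agent.Lib.MP_802513_agY

variable {k H : Type*} [Field k] [AddCommGroup H] [Module k H]

/-- Every ideal of the Lie algebra `g` acts on `V` by scalars, or it acts irreducibly on `V`. -/
def IsAlmostSimple (g : Submodule k (End k H)) (V : Submodule k H) : Prop :=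
  ∀ I ≤ g, (∀ X ∈ g, ∀ Y ∈ I, X * Y - Y * X ∈ I) →
    (∀ Y ∈ I, ∃ s : k, ∀ v ∈ V, Y v = s • v) ∨
      ∀ U ≤ V, (∀ Y ∈ I, ∀ u ∈ U, Y u ∈ U) → U = ⊥ ∨ U = V

/-- `u` is in the group generated by the elements `t e + (1 - e)`, where `t` is a non-zero element of `k` and `e`
is an idempotent of multiplier `1` in `g`. -/
def InGroup (g : Submodule k (End k H)) (c : End k H → k) (u : (End k H)ˣ) : Prop :=
  u ∈ Subgroup.closure {u : (End k H)ˣ | ∃ (e : End k H) (t : k), IsHodgeElt g c e ∧ t ≠ 0 ∧
    (u : End k H) = t • e + (1 - e)}

/-- The subspace `V` is simple, it has a symplectic form with multiplier `c`, every ideal of `g` acts on `V` by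
scalars or irreducibly, and
* either for two conjugate idempotents `h`, `h'` of multiplier `1` in `g` the rank `r` of `N = (1 - h') h` on `V`
  is positive and the pair `(dim V / 2, r)` is not exceptional,
* or for an element `u` of the group generated by the `t e + (1 - e)` (`e` an idempotent of multiplier `1` in
  `g`) and a scalar `a` the rank of `u - a` on `V` is positive and less than `dim V / 4`. -/
def OddPlace (g : Submodule k (End k H)) (c : End k H → k) (V : Submodule k H) : Prop :=
  IsSimpleSub g V ∧ (∃ β, IsSympl g c V β) ∧ IsAlmostSimple g V ∧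
    ((∃ N, IsRelPos g c N ∧ 0 < finrank k (V.map N) ∧
        ¬ IsExc (finrank k V / 2) (finrank k (V.map N))) ∨
      ∃ (u : (End k H)ˣ) (a : k), InGroup g c u ∧ 0 < finrank k (V.map ((u : End k H) - a • 1)) ∧
        2 * finrank k (V.map ((u : End k H) - a • 1)) < finrank k V / 2)

end Pool.Agent.Lib.MP_021685_agN
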