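import Pool.Agent.Lib.MP_021685_agN.ND

/-! # NE: a subspace of small rank is odd -/

set_option autoImplicit false

namespace Pool.Agent.Lib.MP_021685_agN

open Module Pool.Agent.Lib.MP_021685_agO Pool.Agent.Lib.MP_802513_agR Pool.Agent.Lib.MP_021685_agZ

variable {k H : Type*} [Field k] [CharZero k] [IsAlgClosed k] [AddCommGroup H] [Module k H]
  [FiniteDimensional k H] {g : Submodule k (End k H)} {c : End k H → k} {V : Submodule k H}
  {β : H →ₗ[k] H →ₗ[k] k} {n : ℕ}

omit [CharZero k] [IsAlgClosed k] [FiniteDimensional k H] in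
theorem finrank_map_eq_range {Z : End k V} {X : End k H} (h : ∀ v : V, ((Z v : V) : H) = X v) :
    finrank k (V.map X) = finrank k (LinearMap.range Z) := by
  have h1 : (LinearMap.range Z).map V.subtype = V.map X := by
    ext y
    constructor
    · intro hy
      obtain ⟨_, ⟨v, rfl⟩, rfl⟩ := Submodule.mem_map.1 hy
      exact Submodule.mem_map.2 ⟨v, v.2, (h v).symm⟩
    · intro hy
      obtain ⟨v, hv, rfl⟩ := Submodule.mem_map.1 hy
      exact Submodule.mem_map.2 ⟨Z ⟨v, hv⟩, ⟨_, rfl⟩, h _⟩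
  rw [← h1]
  exact (LinearEquiv.finrank_eq (Submodule.equivMapOfInjective V.subtype V.injective_subtype _)).symm

omit [CharZero k] [IsAlgClosed k] [FiniteDimensional k H] in
theorem mat_of (b : Basis (Fin n) k V) {Z : End k V} {X : End k H} (h : ∀ v : V, ((Z v : V) : H) = X v) :
    ∀ j, X (b j : H) = ∑ i, LinearMap.toMatrix b b Z i j • (b i : H) := by
  intro j
  rw [← h]
  have h1 : Z (b j) = ∑ i, LinearMap.toMatrix b b Z i j • b i := by
    refine (b.sum_repr (Z (b j))).symm.trans ?_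
    refine Finset.sum_congr rfl fun i _ => ?_
    rw [LinearMap.toMatrix_apply]
  have h2 := congrArg (fun w : V => (w : H)) h1
  simp only [Submodule.coe_sum, Submodule.coe_smul] at h2
  exact h2

omit [IsAlgClosed k] [FiniteDimensional k H] in
/-- An element of degree `1`. -/
theorem deg_one {A : Type*} [Ring A] [Module k A] [IsScalarTower k A A] {h X : A} (h2 : h * h = h)
    (hX : h * X - X * h = X) : h * X = X ∧ X * h = 0 := by
  have e1 : h * X * h = 0 := by
    have := congrArg (fun y => h * y) hX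
    simp only [mul_sub, ← mul_assoc, h2] at this
    exact sub_eq_self.1 this
  have e2 : X * h = 0 := by
    have := congrArg (fun y => y * h) hX
    simp only [sub_mul, mul_assoc, h2] at this
    rw [← mul_assoc, e1, zero_sub] at this
    have h3 : (2 : k) • (X * h) = 0 := by
      rw [two_smul]
      nth_rewrite 1 [← this]
      exact neg_add_cancel _
    exact (smul_eq_zero_iff_right two_ne_zero).1 h3
  refine ⟨?_, e2⟩
  rw [e2, sub_zero] at hX
  exact hX

omit [IsAlgClosed k] [FiniteDimensional k H] in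
/-- An element of degree `-1`. -/
theorem deg_neg {A : Type*} [Ring A] [Module k A] [IsScalarTower k A A] {h X : A} (h2 : h * h = h)
    (hX : h * X - X * h = -X) : h * X = 0 ∧ X * h = X := by
  have e1 : h * X * h = 0 := by
    have := congrArg (fun y => y * h) hX
    simp only [sub_mul, neg_mul, mul_assoc, h2] at this
    rw [← mul_assoc] at this
    have h3 : h * X * h = -(X * h) + X * h := by rw [← this]; abel
    rw [h3, neg_add_cancel]
  have e2 : h * X = 0 := by
    have := congrArg (fun y => h * y) hX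
    simp only [mul_sub, mul_neg, ← mul_assoc, h2] at this
    rw [e1, sub_zero] at this
    have h3 : (2 : k) • (h * X) = 0 := by
      rw [two_smul]
      nth_rewrite 1 [this]
      exact neg_add_cancel _
    exact (smul_eq_zero_iff_right two_ne_zero).1 h3
  refine ⟨e2, ?_⟩
  rw [e2, zero_sub] at hX
  exact neg_injective hX

/-- The stable subspaces for the elements of degree `1` and `-1`. -/
theorem irr_of_alg {b : Basis (Fin n) k V} {Mh : Matrix (Fin n) (Fin n) k}
    (hMM : Mh * Mh = Mh)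
    (hirr : ∀ M : Submodule k (Fin n → k), (∀ a ∈ Alg (mg g b) Mh, ∀ v ∈ M, a.mulVec v ∈ M) → M = ⊥ ∨ M = ⊤)
    (U : Submodule k V) (hp : ∀ X ∈ gp (gV g V) (Matrix.toLin b b Mh), ∀ u ∈ U, X u ∈ U)
    (hm : ∀ X ∈ gm (gV g V) (Matrix.toLin b b Mh), ∀ u ∈ U, X u ∈ U) : U = ⊥ ∨ U = ⊤ := by
  have hmul : ∀ X Y : Matrix (Fin n) (Fin n) k,
      Matrix.toLin b b (X * Y) = Matrix.toLin b b X * Matrix.toLin b b Y := fun X Y => by
    rw [Module.End.mul_eq_comp, ← Matrix.toLin_mul b b b]
  have hdeg : ∀ X, IsDeg (mg g b) Mh X → ∀ u ∈ U, Matrix.toLin b b X u ∈ U := by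
    rintro X ⟨hX, hd | hd⟩ u hu
    · obtain ⟨e1, e2⟩ := deg_one (k := k) hMM hd
      refine hp _ (mem_gp.2 ⟨toLin_mem_gV b hX, ?_, ?_⟩) u hu
      · rw [← hmul, e1]
      · rw [← hmul, e2, map_zero]
    · obtain ⟨e1, e2⟩ := deg_neg (k := k) hMM hd
      refine hm _ (mem_gm.2 ⟨toLin_mem_gV b hX, ?_, ?_⟩) u hu
      · rw [← hmul, e2]
      · rw [← hmul, e1, map_zero]
  have happ : ∀ (X : Matrix (Fin n) (Fin n) k) (u : V), b.equivFun (Matrix.toLin b b X u)
      = X.mulVec (b.equivFun u) := by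
    intro X u
    have h1 := LinearMap.toMatrix_mulVec_repr b b (Matrix.toLin b b X) u
    rw [LinearMap.toMatrix_toLin] at h1
    exact h1.symm
  have hst : ∀ a ∈ Alg (mg g b) Mh, ∀ v ∈ U.map (b.equivFun : V →ₗ[k] (Fin n → k)),
      a.mulVec v ∈ U.map (b.equivFun : V →ₗ[k] (Fin n → k)) := by
    intro a ha
    induction ha using Algebra.adjoin_induction with
    | mem X hX =>
      intro v hv
      obtain ⟨u, hu, rfl⟩ := Submodule.mem_map.1 hv
      refine Submodule.mem_map.2 ⟨Matrix.toLin b b X u, hdeg X hX u hu, happ X u⟩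
    | algebraMap r =>
      intro v hv
      rw [Algebra.algebraMap_eq_smul_one, Matrix.smul_mulVec, Matrix.one_mulVec]
      exact Submodule.smul_mem _ r hv
    | add X Y _ _ h1 h2 =>
      intro v hv
      rw [Matrix.add_mulVec]
      exact Submodule.add_mem _ (h1 v hv) (h2 v hv)
    | mul X Y _ _ h1 h2 =>
      intro v hv
      rw [← Matrix.mulVec_mulVec]
      exact h1 _ (h2 v hv)
  have hinj : Function.Injective (b.equivFun : V →ₗ[k] (Fin n → k)) := b.equivFun.injective
  rcases hirr _ hst with h | h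
  · left
    apply Submodule.map_injective_of_injective hinj
    rw [h, Submodule.map_bot]
  · right
    apply Submodule.map_injective_of_injective hinj
    rw [h, Submodule.map_top, LinearMap.range_eq_top.2 b.equivFun.surjective]

/-- PROOF. `exists_pair_N_rank` gives `N` in `g` of degree `-1` for a Hodge element `h` of the same rank.
`ctx_of`, `alg_irr` and `irr_of_alg`: the elements of degree `1` and `-1` act irreducibly on `V`;
`exists_rank_one_gm` for the Lie algebra `gV g V`. -/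
theorem OddSmall.oddSimple (hg : IsGaloisAlg g c) (hV : OddSmall g c V) : OddSimple g c V := by
  obtain ⟨hVs, β, n, b, _, hs, hb, hQ, ⟨h₁, h₁', hh₁, hh₁', hconj, rfl⟩, hr0, hr4, hr3⟩ := hV
  have : Infinite k := Infinite.of_injective (Nat.cast : ℕ → k) Nat.cast_injective
  obtain ⟨h, hhg, N, hN, hhh, hin, c1, c2, c3⟩ :=
    exists_pair_N_rank hg.lie hh₁.1 hh₁.2.1 hh₁'.1 hh₁'.2.1 (InnerConj.of_conjIn hconj)
  rw [← c3 V hVs.2.1] at hr0 hr4 hr3
  have hh : IsHodgeElt g c h := ⟨hhg, hhh, by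
    rw [(w_mult_conj hg.lie hVs.2.1 hs hh₁.1 hVs.1 hin).2]
    exact hh₁.2.2⟩
  have hst := hVs.2.1
  have hres : ∀ X ∈ g, ∀ v ∈ V, X v ∈ V := fun X hX v hv => hst X hX v hv
  let Zh : End k V := h.restrict (hres h hhg)
  let ZN : End k V := N.restrict (hres N hN)
  have hZh : ∀ v : V, ((Zh v : V) : H) = h v := fun v => rfl
  have hZN : ∀ v : V, ((ZN v : V) : H) = N v := fun v => rfl
  have hZhh : Zh * Zh = Zh := by
    ext v
    rw [Module.End.mul_apply, hZh, hZh, ← Module.End.mul_apply, hhh]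
  have hZ1 : Zh * ZN = 0 := by
    ext v
    rw [Module.End.mul_apply, hZh, hZN, ← Module.End.mul_apply, c1]
    rfl
  have hZ2 : ZN * Zh = ZN := by
    ext v
    rw [Module.End.mul_apply, hZN, hZh, ← Module.End.mul_apply, c2, hZN]
  have hZNg : ZN ∈ gV g V := ⟨N, hN, hZN⟩
  have hZhg : Zh ∈ gV g V := ⟨h, hhg, hZh⟩
  have hrk : finrank k (V.map N) = finrank k (LinearMap.range ZN) := finrank_map_eq_range hZN
  have hZN0 : ZN ≠ 0 := by
    intro h0
    rw [hrk, h0, LinearMap.range_zero, finrank_bot] at hr0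
    exact lt_irrefl 0 hr0
  let Mh := LinearMap.toMatrix b b Zh
  let MN := LinearMap.toMatrix b b ZN
  have hMhL : Matrix.toLin b b Mh = Zh := Matrix.toLin_toMatrix b b Zh
  have hMh : ∀ j, h (b j : H) = ∑ i, Mh i j • (b i : H) := mat_of b hZh
  have hMM : Mh * Mh = Mh := by
    change LinearMap.toMatrix b b Zh * LinearMap.toMatrix b b Zh = LinearMap.toMatrix b b Zh
    rw [← LinearMap.toMatrix_comp b b b, ← Module.End.mul_eq_comp, hZhh]
  have hM1 : Mh * MN = 0 := by
    change LinearMap.toMatrix b b Zh * LinearMap.toMatrix b b ZN = 0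
    rw [← LinearMap.toMatrix_comp b b b, ← Module.End.mul_eq_comp, hZ1, map_zero]
  have hM2 : MN * Mh = MN := by
    change LinearMap.toMatrix b b ZN * LinearMap.toMatrix b b Zh = LinearMap.toMatrix b b ZN
    rw [← LinearMap.toMatrix_comp b b b, ← Module.End.mul_eq_comp, hZ2]
  have hMN0 : MN ≠ 0 := by
    intro h0
    exact hZN0 ((LinearMap.toMatrix b b).injective (h0.trans (map_zero _).symm))
  have hns : ∀ s : k, Mh ≠ s • (1 : Matrix (Fin n) (Fin n) k) := by
    intro s hs'
    apply hMN0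
    have e1 : s • MN = 0 := by rw [← hM1, hs', smul_mul_assoc, one_mul]
    rw [← hM2, hs', mul_smul_comm, mul_one, e1]
  have hC := ctx_of hg hVs hs b hb hQ hh hMh hns
  have hMNg : MN ∈ mg g b := ⟨N, hN, mat_of b hZN⟩
  have hdeg : IsDeg (mg g b) Mh MN := ⟨hMNg, Or.inr (by rw [hM1, hM2, zero_sub])⟩
  have hrank : MN.rank = finrank k (V.map N) := by
    rw [hrk, Matrix.rank_eq_finrank_range_toLin MN b b]
    exact congrArg (fun Z : End k V => finrank k (LinearMap.range Z)) (Matrix.toLin_toMatrix b b ZN)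
  have hirr := fun M hM => alg_irr hC (Algebra.subset_adjoin hdeg) hMN0
    (by rw [hrank, Fintype.card_fin]; exact hr3) (M := M) hM
  have hirr' := fun U => irr_of_alg (g := g) (b := b) hMM hirr U
  rw [hMhL] at hirr'
  -- the Lie algebra on `V`
  have hgV := isGaloisAlg_gV hg hVs.1 hst hs
  have htop := isSimpleSub_gV hVs
  have hsV : IsSympl (gV g V) (cV g c V) ⊤ (β.domRestrict₁₂ V V) := by
    refine ⟨?_, ?_, ?_⟩
    · rintro Z ⟨X, hX, hZ⟩ u _ v _
      rw [LinearMap.domRestrict₁₂_apply, LinearMap.domRestrict₁₂_apply, LinearMap.domRestrict₁₂_apply, hZ, hZ,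
        cV_eq hVs.1 hs hX hZ]
      exact hs.mult X hX u u.2 v v.2
    · intro u _
      rw [LinearMap.domRestrict₁₂_apply]
      exact hs.alt u u.2
    · intro u _ hu
      apply Subtype.ext
      refine hs.nondeg u u.2 fun v hv => ?_
      have := hu ⟨v, hv⟩ trivial
      rw [LinearMap.domRestrict₁₂_apply] at this
      exact this
  have hhV : IsHodgeElt (gV g V) (cV g c V) Zh := ⟨hZhg, hZhh, by rw [cV_eq hVs.1 hs hhg hZh]; exact hh.2.2⟩
  have hn : finrank k V = n := by rw [finrank_eq_card_basis b, Fintype.card_fin]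
  obtain ⟨X', hX', hX1⟩ := exists_rank_one_gm hgV hsV htop.1 hhV hirr' (mem_gm.2 ⟨hZNg, hZ2, hZ1⟩) hZN0
    (by rw [← hrk, hn]; exact hr4)
  obtain ⟨⟨X, hX, hXX⟩, d1, d2⟩ := mem_gp.1 hX'
  have hco := (hcomp hg.lie hhg hhh hX).1
  obtain ⟨f1, f2, f3⟩ := mem_gp.1 hco
  have hXr : ∀ v : V, ((X' v : V) : H) = (h * X * (1 - h)) v := by
    intro v
    have e1 : X' v = Zh (X' ((1 - Zh) v)) := by
      have e2 : X' = Zh * X' * (1 - Zh) := by rw [mul_sub, mul_one, d1, d2, sub_zero]
      conv_lhs => rw [e2]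
      rfl
    rw [e1, hZh, hXX]
    rfl
  refine ⟨hVs, ⟨β, hs⟩, h * X * (1 - h), ⟨f1, h, hh, Or.inl ?_⟩, Or.inl ?_⟩
  · rw [f2, f3, sub_zero]
  · rw [finrank_map_eq_range hXr, hX1]
    exact odd_one

end Pool.Agent.Lib.MP_021685_agN
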