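import Pool.Agent.Lib.MP_021685_agN.NDefs3
import Pool.Agent.Lib.MP_021685_agN.NC3
import Pool.Agent.Lib.MP_021685_agN.NE
import Pool.Agent.Lib.MP_021685_agO.OJ

/-! # NE3: a subspace with an element of a rank which is not exceptional is odd -/

set_option autoImplicit false

namespace Pool.Agent.Lib.MP_021685_agN

open Module Pool.Agent.Lib.MP_021685_agO Pool.Agent.Lib.MP_802513_agR Pool.Agent.Lib.MP_021685_agZ
  Pool.Agent.Lib.MP_802513_agY

variable {k H : Type*} [Field k] [CharZero k] [IsAlgClosed k] [AddCommGroup H] [Module k H]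
  [FiniteDimensional k H] {g : Submodule k (End k H)} {c : End k H → k} {V : Submodule k H}
  {β : H →ₗ[k] H →ₗ[k] k}

/-- The elements of degree `1` and `-1` act irreducibly, if one of them is not zero. -/
theorem irr_of_almost (hg : IsGaloisAlg g c) (hVs : IsSimpleSub g V) (hA : IsAlmostSimple g V) {h : End k H}
    (hh : IsHodgeElt g c h) {Zh : End k V} (hZh : ∀ v : V, ((Zh v : V) : H) = h v) {Z : End k V}
    (hZ : Z ∈ gp (gV g V) Zh ∨ Z ∈ gm (gV g V) Zh) (hZ0 : Z ≠ 0) (U : Submodule k V)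
    (hp : ∀ X ∈ gp (gV g V) Zh, ∀ u ∈ U, X u ∈ U) (hm : ∀ X ∈ gm (gV g V) Zh, ∀ u ∈ U, X u ∈ U) :
    U = ⊥ ∨ U = ⊤ := by
  have hhg := hh.1
  have hhh := hh.2.1
  have hst := hVs.2.1
  have hres : ∀ X ∈ g, ∀ v ∈ V, X v ∈ V := fun X hX v hv => hst X hX v hv
  -- an element of `KK g h` which acts like `Z`
  obtain ⟨N, hN, hNZ⟩ : ∃ N ∈ KK g h, ∀ v : V, ((Z v : V) : H) = N v := by
    rcases hZ with hZ | hZ
    · obtain ⟨⟨X, hX, hXX⟩, d1, d2⟩ := mem_gp.1 hZ
      refine ⟨h * X * (1 - h), gp_le_KK h (hcomp hg.lie hhg hhh hX).1, fun v => ?_⟩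
      have e1 : Z v = Zh (Z ((1 - Zh) v)) := by
        have e2 : Z = Zh * Z * (1 - Zh) := by rw [mul_sub, mul_one, d1, d2, sub_zero]
        conv_lhs => rw [e2]
        rfl
      rw [e1, hZh, hXX]
      change h (X ((v : H) - (Zh v : V))) = _
      rw [hZh]
      rfl
    · obtain ⟨⟨X, hX, hXX⟩, d1, d2⟩ := mem_gm.1 hZ
      refine ⟨(1 - h) * X * h, gm_le_KK h (hcomp hg.lie hhg hhh hX).2.1, fun v => ?_⟩
      have e1 : Z v = (1 - Zh) (Z (Zh v)) := by
        have e2 : Z = (1 - Zh) * Z * Zh := by rw [sub_mul, one_mul, sub_mul, d1, d2, zero_mul, sub_zero]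
        conv_lhs => rw [e2]
        rfl
      rw [e1]
      change ((Z (Zh v) : V) : H) - ((Zh (Z (Zh v)) : V) : H) = _
      rw [hZh, hXX, hZh]
      rfl
  have hZZ : Z * Z = 0 := by
    rcases hZ with hZ | hZ
    · obtain ⟨_, d1, d2⟩ := mem_gp.1 hZ
      calc Z * Z = Z * (Zh * Z) := by rw [d1]
        _ = 0 := by rw [← mul_assoc, d2, zero_mul]
    · obtain ⟨_, d1, d2⟩ := mem_gm.1 hZ
      calc Z * Z = Z * Zh * Z := by rw [d1]
        _ = 0 := by rw [mul_assoc, d2, mul_zero]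
  -- the ideal `KK g h` is irreducible on `V`
  have hKirr : ∀ U ≤ V, (∀ Y ∈ KK g h, ∀ u ∈ U, Y u ∈ U) → U = ⊥ ∨ U = V := by
    rcases hA (KK g h) (KK_le hg.lie h) (fun X hX Y hY => KK_ideal hg.lie hhg hhh hX hY) with h0 | h0
    · exfalso
      obtain ⟨s, hs'⟩ := h0 N hN
      apply hZ0
      have hZs : ∀ v : V, Z v = s • v := fun v => Subtype.ext (by
        rw [hNZ, hs' v v.2]
        rfl)
      obtain ⟨v, hv, hv0⟩ := Submodule.exists_mem_ne_zero_of_ne_bot hVs.1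
      have e1 : Z (Z ⟨v, hv⟩) = 0 := by rw [← Module.End.mul_apply, hZZ, LinearMap.zero_apply]
      rw [hZs, hZs, smul_smul] at e1
      have hs0 : s = 0 := by
        rcases smul_eq_zero.1 e1 with h5 | h5
        · exact mul_self_eq_zero.1 h5
        · exact absurd (congrArg Subtype.val h5) hv0
      ext1 u
      rw [hZs, hs0, zero_smul]
      rfl
    · exact h0
  have hmem : ∀ u : V, (u : H) ∈ U.map V.subtype → u ∈ U := by
    intro u hu
    obtain ⟨u', hu', e⟩ := Submodule.mem_map.1 hu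
    have : u' = u := Subtype.ext e
    rwa [← this]
  have hgp : ∀ X ∈ gp g h, ∀ u ∈ U.map V.subtype, X u ∈ U.map V.subtype := by
    intro X hX u hu
    obtain ⟨u', hu', rfl⟩ := Submodule.mem_map.1 hu
    obtain ⟨d1, d2, d3⟩ := mem_gp.1 hX
    refine Submodule.mem_map.2 ⟨X.restrict (hres X d1) u', hp _ (mem_gp.2 ⟨⟨X, d1, fun v => rfl⟩, ?_, ?_⟩) u' hu', rfl⟩
    · ext v
      rw [Module.End.mul_apply, hZh]
      change h (X v) = X v
      rw [← Module.End.mul_apply, d2]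
    · ext v
      change X ((Zh v : V) : H) = 0
      rw [hZh, ← Module.End.mul_apply, d3]
      rfl
  have hgm : ∀ X ∈ gm g h, ∀ u ∈ U.map V.subtype, X u ∈ U.map V.subtype := by
    intro X hX u hu
    obtain ⟨u', hu', rfl⟩ := Submodule.mem_map.1 hu
    obtain ⟨d1, d2, d3⟩ := mem_gm.1 hX
    refine Submodule.mem_map.2 ⟨X.restrict (hres X d1) u', hm _ (mem_gm.2 ⟨⟨X, d1, fun v => rfl⟩, ?_, ?_⟩) u' hu', rfl⟩
    · ext v
      change X ((Zh v : V) : H) = X v
      rw [hZh, ← Module.End.mul_apply, d2]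
    · ext v
      rw [Module.End.mul_apply, hZh]
      change h (X v) = 0
      rw [← Module.End.mul_apply, d3]
      rfl
  have hKK : ∀ Y ∈ KK g h, ∀ u ∈ U.map V.subtype, Y u ∈ U.map V.subtype := by
    intro Y hY
    obtain ⟨A, hA', B, hB', rfl⟩ := Submodule.mem_sup.1 hY
    obtain ⟨A1, hA1, A2, hA2, rfl⟩ := Submodule.mem_sup.1 hA'
    intro u hu
    have hB1 : ∀ u ∈ U.map V.subtype, B u ∈ U.map V.subtype := by
      clear hY hu u
      induction hB' using Submodule.span_induction with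
      | mem Z hZ =>
        obtain ⟨x, hx, y, hy, rfl⟩ := hZ
        intro u hu
        exact Submodule.sub_mem _ (hgm x hx _ (hgp y hy u hu)) (hgp y hy _ (hgm x hx u hu))
      | zero => intro u _; exact Submodule.zero_mem _
      | add Z Z' _ _ h1 h2 => intro u hu; exact Submodule.add_mem _ (h1 u hu) (h2 u hu)
      | smul a Z _ h1 => intro u hu; exact Submodule.smul_mem _ a (h1 u hu)
    exact Submodule.add_mem _ (Submodule.add_mem _ (hgm A1 hA1 u hu) (hgp A2 hA2 u hu)) (hB1 u hu)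
  rcases hKirr (U.map V.subtype) (by
    rintro x hx
    obtain ⟨u', _, rfl⟩ := Submodule.mem_map.1 hx
    exact u'.2) hKK with h0 | h0
  · left
    rw [eq_bot_iff]
    intro u hu
    have h1 : (u : H) ∈ U.map V.subtype := Submodule.mem_map.2 ⟨u, hu, rfl⟩
    rw [h0, Submodule.mem_bot] at h1
    exact (Submodule.mem_bot k).2 (Subtype.ext h1)
  · right
    rw [eq_top_iff]
    intro u _
    exact hmem u (by rw [h0]; exact u.2)

/-- A homogeneous element whose rank on `V` is not exceptional. -/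
theorem oddSimple_of_elt (hg : IsGaloisAlg g c) (hVs : IsSimpleSub g V) (hs : IsSympl g c V β)
    (hA : IsAlmostSimple g V) {h : End k H} (hh : IsHodgeElt g c h) {Zh : End k V}
    (hZh : ∀ v : V, ((Zh v : V) : H) = h v) {Z : End k V}
    (hZ : Z ∈ gp (gV g V) Zh ∨ Z ∈ gm (gV g V) Zh) (hZ0 : Z ≠ 0)
    (hr : ¬ IsExc (finrank k V / 2) (finrank k (LinearMap.range Z))) : OddSimple g c V := by
  have hhg := hh.1
  have hhh := hh.2.1
  have hst := hVs.2.1
  have hirr' := irr_of_almost hg hVs hA hh hZh hZ hZ0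
  have hgV := isGaloisAlg_gV hg hVs.1 hst hs
  have htop := isSimpleSub_gV hVs
  have hsV : IsSympl (gV g V) (cV g c V) ⊤ (β.domRestrict₁₂ V V) := by
    refine ⟨?_, ?_, ?_⟩
    · rintro Z ⟨X, hX, hZ⟩ u _ v _
      rw [LinearMap.domRestrict₁₂_apply, LinearMap.domRestrict₁₂_apply, LinearMap.domRestrict₁₂_apply, hZ, hZ,
        cV_eq hVs.1 hs hX hZ]
      exact hs.mult X hX u u.2 v v.2
    · intro u _
      rw [LinearMap.domRestrict₁₂_apply]
      exact hs.alt u u.2
    · intro u _ hu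
      apply Subtype.ext
      refine hs.nondeg u u.2 fun v hv => ?_
      have := hu ⟨v, hv⟩ trivial
      rw [LinearMap.domRestrict₁₂_apply] at this
      exact this
  have hZhh : Zh * Zh = Zh := by
    ext v
    rw [Module.End.mul_apply, hZh, hZh, ← Module.End.mul_apply, hhh]
  have hhV : IsHodgeElt (gV g V) (cV g c V) Zh :=
    ⟨⟨h, hhg, hZh⟩, hZhh, by rw [cV_eq hVs.1 hs hhg hZh]; exact hh.2.2⟩
  obtain ⟨X', hX', hX1⟩ : ∃ X' ∈ gp (gV g V) Zh, finrank k (LinearMap.range X') = 1 := by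
    rcases hZ with hZ | hZ
    · exact exists_rank_one_gp2 hgV hsV htop.1 hhV hirr' hZ hZ0 hr
    · exact exists_rank_one_gm2 hgV hsV htop.1 hhV hirr' hZ hZ0 hr
  obtain ⟨⟨X, hX, hXX⟩, d1, d2⟩ := mem_gp.1 hX'
  have hco := (hcomp hg.lie hhg hhh hX).1
  obtain ⟨f1, f2, f3⟩ := mem_gp.1 hco
  have hXr : ∀ v : V, ((X' v : V) : H) = (h * X * (1 - h)) v := by
    intro v
    have e1 : X' v = Zh (X' ((1 - Zh) v)) := by
      have e2 : X' = Zh * X' * (1 - Zh) := by rw [mul_sub, mul_one, d1, d2, sub_zero]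
      conv_lhs => rw [e2]
      rfl
    rw [e1, hZh, hXX]
    change h (X ((v : H) - (Zh v : V))) = _
    rw [hZh]
    rfl
  refine ⟨hVs, ⟨β, hs⟩, h * X * (1 - h), ⟨f1, h, hh, Or.inl ?_⟩, Or.inl ?_⟩
  · rw [f2, f3, sub_zero]
  · rw [finrank_map_eq_range hXr, hX1]
    exact odd_one

/-- Two conjugate idempotents in a relative position whose rank on `V` is not exceptional. -/
theorem oddSimple_of_pair (hg : IsGaloisAlg g c) (hVs : IsSimpleSub g V) (hs : IsSympl g c V β)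
    (hA : IsAlmostSimple g V) {h₁ h₁' : End k H} (hh₁ : IsHodgeElt g c h₁) (hg' : h₁' ∈ g)
    (hh' : h₁' * h₁' = h₁') (hconj : InnerConj g c h₁ h₁') (hr0 : 0 < finrank k (V.map ((1 - h₁') * h₁)))
    (hre : ¬ IsExc (finrank k V / 2) (finrank k (V.map ((1 - h₁') * h₁)))) : OddSimple g c V := by
  have : Infinite k := Infinite.of_injective (Nat.cast : ℕ → k) Nat.cast_injective
  obtain ⟨h, hhg, N, hN, hhh, hin, c1, c2, c3⟩ :=
    exists_pair_N_rank hg.lie hh₁.1 hh₁.2.1 hg' hh' hconj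
  rw [← c3 V hVs.2.1] at hr0 hre
  have hh : IsHodgeElt g c h := ⟨hhg, hhh, by
    rw [(w_mult_conj hg.lie hVs.2.1 hs hh₁.1 hVs.1 hin).2]
    exact hh₁.2.2⟩
  have hst := hVs.2.1
  have hres : ∀ X ∈ g, ∀ v ∈ V, X v ∈ V := fun X hX v hv => hst X hX v hv
  let Zh : End k V := h.restrict (hres h hhg)
  let ZN : End k V := N.restrict (hres N hN)
  have hZh : ∀ v : V, ((Zh v : V) : H) = h v := fun v => rfl
  have hZN : ∀ v : V, ((ZN v : V) : H) = N v := fun v => rfl
  have hZ1 : Zh * ZN = 0 := by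
    ext v
    rw [Module.End.mul_apply, hZh, hZN, ← Module.End.mul_apply, c1]
    rfl
  have hZ2 : ZN * Zh = ZN := by
    ext v
    rw [Module.End.mul_apply, hZN, hZh, ← Module.End.mul_apply, c2, hZN]
  have hrk : finrank k (V.map N) = finrank k (LinearMap.range ZN) := finrank_map_eq_range hZN
  have hZN0 : ZN ≠ 0 := by
    intro h0
    rw [hrk, h0, LinearMap.range_zero, finrank_bot] at hr0
    exact lt_irrefl 0 hr0
  exact oddSimple_of_elt hg hVs hs hA hh hZh (Or.inr (mem_gm.2 ⟨⟨N, hN, hZN⟩, hZ2, hZ1⟩)) hZN0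
    (by rw [← hrk]; exact hre)

end Pool.Agent.Lib.MP_021685_agN
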