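import Pool.Agent.Lib.MP_021685_agN.NG3
import Pool.Agent.Lib.MP_021685_agZ.ZV

/-! # NF3: one place decides: the main theorem -/

set_option autoImplicit false

namespace Pool.Agent.Lib.MP_021685_agN

open Module Pool.Agent.Lib.MP_021685_agO Pool.Agent.Lib.MP_021685_agZ

variable {k₀ k ι : Type*} [Field k₀] [Field k] [CharZero k] [IsAlgClosed k] [Algebra k₀ k] [Fintype ι]
  [DecidableEq ι] {g : Submodule k (End k (ι → k))} {c : End k (ι → k) → k}

theorem main7 (hg : IsGaloisAlg g c) {H₀ H₁ : Submodule k (ι → k)} (hc : IsCompl H₀ H₁)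
    (h₀ : IsStable g H₀) (h₁ : IsStable g H₁)
    (hHom : ∀ φ : End k (ι → k), (∀ X ∈ g, φ * X = X * φ) → ∀ u ∈ H₁, φ u ∈ H₁)
    (hodd : H₁ ≤ sSup {V | OddDisc k₀ g c V ∨ OddSimple3 g c V ∨ OddPlace g c V})
    (s : ℕ) (T : MultilinearMap k (fun _ : Fin s => ι → k) k) (hT : IsTateForm g c s T) :
    IsGenOver g c H₁ s T := by
  refine main hg hc h₀ h₁ hHom (hodd.trans (sSup_le_sSup fun V hV => ?_)) s T hT
  rcases hV with hV | hV | hV
  · exact Or.inl (OddDisc.oddSimple hg hV)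
  · exact Or.inl (OddSimple3.oddSimple hg.lie hV)
  · exact Or.inl (OddPlace.oddSimple hg hV)

end Pool.Agent.Lib.MP_021685_agN
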