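import Pool.Agent.Lib.MP_021685_agN.NE3

/-! # NG3: elements of the group such that `u - a` has small rank -/

set_option autoImplicit false

namespace Pool.Agent.Lib.MP_021685_agN

open Module Pool.Agent.Lib.MP_021685_agO Pool.Agent.Lib.MP_802513_agR Pool.Agent.Lib.MP_021685_agZ
  Pool.Agent.Lib.MP_802513_agY

variable {k H : Type*} [Field k] [CharZero k] [IsAlgClosed k] [AddCommGroup H] [Module k H]
  [FiniteDimensional k H] {g : Submodule k (End k H)} {c : End k H → k} {V : Submodule k H}
  {β : H →ₗ[k] H →ₗ[k] k}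

/-- A pair `(d, r)` with `r < d / 2` is not exceptional. -/
theorem not_isExc_of_lt {d r : ℕ} (h : 2 * r < d) : ¬ IsExc d r := by
  rintro (⟨t, -, -, -, h1 | h1⟩ | ⟨m, hm, -, rfl, rfl⟩)
  · omega
  · omega
  · obtain ⟨n, rfl⟩ : ∃ n, m = n + 1 := ⟨m - 1, by omega⟩
    have h1 : 2 * (n + 1) - 1 = 2 * n + 1 := by omega
    have h2 : 2 * (n + 1) - 2 = 2 * n := by omega
    rw [h1, h2, Nat.add_sub_cancel] at h
    have h3 : (2 * n + 1) * (2 * n).choose n = (2 * n + 1).choose (n + 1) * (n + 1) :=
      Nat.add_one_mul_choose_eq (2 * n) n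
    nlinarith

/-- The elements of the group map stable subspaces to themselves. -/
theorem group_stable (hst : IsStable g V) {u : (End k H)ˣ} (hu : InGroup g c u) :
    (∀ v ∈ V, (u : End k H) v ∈ V) ∧ ∀ v ∈ V, (↑u⁻¹ : End k H) v ∈ V := by
  refine Subgroup.closure_induction
    (p := fun (u : (End k H)ˣ) _ => (∀ v ∈ V, (u : End k H) v ∈ V) ∧ ∀ v ∈ V, (↑u⁻¹ : End k H) v ∈ V)
    ?_ ?_ ?_ ?_ hu
  · rintro u ⟨e, t, he, ht, hut⟩
    have hec : e * (1 - e) = 0 := by rw [mul_sub, mul_one, he.2.1, sub_self]
    have hce : (1 - e) * e = 0 := by rw [sub_mul, one_mul, he.2.1, sub_self]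
    have hcc : (1 - e) * (1 - e) = 1 - e := by rw [mul_sub, mul_one, hce, sub_zero]
    have h1 : (u : End k H) * (t⁻¹ • e + (1 - e)) = 1 := by
      rw [hut, add_mul, mul_add, mul_add]
      simp only [smul_mul_assoc, mul_smul_comm, hec, hce, he.2.1, hcc, smul_zero, add_zero, zero_add, smul_smul,
        inv_mul_cancel₀ ht, one_smul, add_sub_cancel]
    have h2 : (↑u⁻¹ : End k H) = t⁻¹ • e + (1 - e) := by
      have := congrArg (fun x => (↑u⁻¹ : End k H) * x) h1
      simp only [mul_one, ← mul_assoc, Units.inv_mul, one_mul] at this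
      exact this.symm
    have h3 : ∀ (s : k) (v : H), v ∈ V → (s • e + (1 - e)) v ∈ V := by
      intro s v hv
      have h4 := hst e he.1 v hv
      rw [LinearMap.add_apply, LinearMap.smul_apply, LinearMap.sub_apply, Module.End.one_apply]
      exact V.add_mem (V.smul_mem s h4) (V.sub_mem hv h4)
    exact ⟨fun v hv => by rw [hut]; exact h3 t v hv, fun v hv => by rw [h2]; exact h3 t⁻¹ v hv⟩
  · refine ⟨fun v hv => ?_, fun v hv => ?_⟩ <;> simpa using hv
  · rintro u v _ _ ⟨u1, u2⟩ ⟨v1, v2⟩
    refine ⟨fun w hw => ?_, fun w hw => ?_⟩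
    · rw [Units.val_mul, Module.End.mul_apply]
      exact u1 _ (v1 w hw)
    · rw [mul_inv_rev, Units.val_mul, Module.End.mul_apply]
      exact v2 _ (u2 w hw)
  · rintro u _ ⟨u1, u2⟩
    rw [inv_inv]
    exact ⟨u2, u1⟩

theorem oddSimple_of_group (hg : IsGaloisAlg g c) (hVs : IsSimpleSub g V) (hs : IsSympl g c V β)
    (hA : IsAlmostSimple g V) {u : (End k H)ˣ} {a : k} (hu : InGroup g c u)
    (hr0 : 0 < finrank k (V.map ((u : End k H) - a • 1)))
    (hr : 2 * finrank k (V.map ((u : End k H) - a • 1)) < finrank k V / 2) : OddSimple g c V := by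
  obtain ⟨hu1, hu2⟩ := group_stable hVs.2.1 hu
  have hst := hVs.2.1
  have huu : ∀ v, (↑u⁻¹ : End k H) ((u : End k H) v) = v := fun v => by
    rw [← Module.End.mul_apply, Units.inv_mul, Module.End.one_apply]
  have huu' : ∀ v, (u : End k H) ((↑u⁻¹ : End k H) v) = v := fun v => by
    rw [← Module.End.mul_apply, Units.mul_inv, Module.End.one_apply]
  -- `a` is not zero
  have ha : a ≠ 0 := by
    rintro rfl
    have h1 : V.map ((u : End k H) - (0 : k) • 1) = V := by
      rw [zero_smul, sub_zero]
      apply le_antisymm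
      · rintro _ ⟨v, hv, rfl⟩
        exact hu1 v hv
      · intro v hv
        exact Submodule.mem_map.2 ⟨(↑u⁻¹ : End k H) v, hu2 v hv, huu' v⟩
    rw [h1] at hr hr0
    omega
  -- the conjugates
  obtain ⟨cj, hcj⟩ : ∃ cj : End k H → End k H, ∀ h, cj h = (u : End k H) * h * (↑u⁻¹ : End k H) :=
    ⟨fun h => (u : End k H) * h * (↑u⁻¹ : End k H), fun _ => rfl⟩
  have hconj : ∀ h, IsHodgeElt g c h → InnerConj g c h (cj h) := fun h hh =>
    InnerConj.of_conjIn ⟨u, hu, by rw [hcj, mul_assoc, Units.inv_mul, mul_one]⟩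
  have hcg : ∀ h, IsHodgeElt g c h → cj h ∈ g := fun h hh =>
    (w_mult_conj hg.lie hst hs hh.1 hVs.1 (hconj h hh)).1
  have hcc : ∀ h, IsHodgeElt g c h → cj h * cj h = cj h := fun h hh => by
    rw [hcj]
    calc (u : End k H) * h * (↑u⁻¹ : End k H) * ((u : End k H) * h * (↑u⁻¹ : End k H))
        = (u : End k H) * (h * (↑u⁻¹ * u) * h) * (↑u⁻¹ : End k H) := by simp only [mul_assoc]
      _ = _ := by rw [Units.inv_mul, mul_one, hh.2.1]
  -- the ranks: for `x y = 0` the rank of `u x u⁻¹ y` is at most the rank of `u - a`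
  have hrank : ∀ x y : End k H, x * y = 0 → (∀ v ∈ V, y v ∈ V) →
      finrank k (V.map ((u : End k H) * x * (↑u⁻¹ : End k H) * y)) ≤
        finrank k (V.map ((u : End k H) - a • 1)) := by
    intro x y hxy hy
    have h1 : (u : End k H) * x * (↑u⁻¹ : End k H) * y =
        ((-a⁻¹) • ((u : End k H) * x * (↑u⁻¹ : End k H))) * (((u : End k H) - a • 1) * y) := by
      have e1 : (u : End k H) * x * (↑u⁻¹ : End k H) * ((u : End k H) * y) = 0 := by
        calc (u : End k H) * x * (↑u⁻¹ : End k H) * ((u : End k H) * y)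
            = (u : End k H) * (x * ((↑u⁻¹ : End k H) * (u : End k H)) * y) := by simp only [mul_assoc]
          _ = 0 := by rw [Units.inv_mul, mul_one, hxy, mul_zero]
      have e2 : ((u : End k H) - a • 1) * y = (u : End k H) * y - a • y := by
        rw [sub_mul, smul_mul_assoc, one_mul]
      rw [e2, smul_mul_assoc, mul_sub, e1, mul_smul_comm, zero_sub, smul_neg, smul_smul, neg_mul,
        inv_mul_cancel₀ ha, neg_smul, one_smul, neg_neg]
    have h2 : V.map ((u : End k H) * x * (↑u⁻¹ : End k H) * y) ≤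
        (V.map ((u : End k H) - a • 1)).map ((-a⁻¹) • ((u : End k H) * x * (↑u⁻¹ : End k H))) := by
      rintro _ ⟨v, hv, rfl⟩
      refine Submodule.mem_map.2 ⟨((u : End k H) - a • 1) (y v), Submodule.mem_map.2 ⟨y v, hy v hv, rfl⟩, ?_⟩
      rw [h1]
      rfl
    exact (Submodule.finrank_mono h2).trans (Submodule.finrank_map_le _ _)
  -- first case: the images are different
  by_cases hcase : ∃ h, IsHodgeElt g c h ∧ V.map ((1 - cj h) * h) ≠ ⊥
  · obtain ⟨h, hh, hne⟩ := hcase
    have h1 : (1 - cj h) * h = (u : End k H) * (1 - h) * (↑u⁻¹ : End k H) * h := by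
      have e1 : (u : End k H) * (1 - h) * (↑u⁻¹ : End k H) = 1 - cj h := by
        rw [hcj, mul_sub, mul_one, sub_mul, Units.mul_inv]
      rw [e1]
    have h2 := hrank (1 - h) h (by rw [sub_mul, one_mul, hh.2.1, sub_self]) (fun v hv => hst h hh.1 v hv)
    rw [← h1] at h2
    have h3 : 0 < finrank k (V.map ((1 - cj h) * h)) := by
      rw [Nat.pos_iff_ne_zero]
      intro h0
      exact hne (Submodule.finrank_eq_zero.1 h0)
    exact oddSimple_of_pair hg hVs hs hA hh (hcg h hh) (hcc h hh) (hconj h hh) h3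
      (not_isExc_of_lt (by omega))
  · push Not at hcase
    have hcase' : ∀ h, IsHodgeElt g c h → ∀ v ∈ V, cj h (h v) = h v := by
      intro h hh v hv
      have h1 : ((1 - cj h) * h) v ∈ V.map ((1 - cj h) * h) := Submodule.mem_map.2 ⟨v, hv, rfl⟩
      rw [hcase h hh, Submodule.mem_bot, Module.End.mul_apply, LinearMap.sub_apply, Module.End.one_apply,
        sub_eq_zero] at h1
      exact h1.symm
    -- the images are equal
    have hcase2 : ∀ h, IsHodgeElt g c h → ∀ v ∈ V, h (cj h v) = cj h v := by
      intro h hh v hv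
      have h1 : V.map h ≤ V.map (cj h) := by
        rintro _ ⟨w, hw, rfl⟩
        exact Submodule.mem_map.2 ⟨h w, hst h hh.1 w hw, hcase' h hh w hw⟩
      have h2 : finrank k (V.map (cj h)) ≤ finrank k (V.map h) := by
        have h3 : V.map (cj h) ≤ (V.map h).map (u : End k H) := by
          rintro _ ⟨w, hw, rfl⟩
          refine Submodule.mem_map.2 ⟨h ((↑u⁻¹ : End k H) w), Submodule.mem_map.2 ⟨_, hu2 w hw, rfl⟩, ?_⟩
          rw [hcj]
          rfl
        exact (Submodule.finrank_mono h3).trans (Submodule.finrank_map_le _ _)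
      have h3 := Submodule.eq_of_le_of_finrank_le h1 h2
      have h4 : cj h v ∈ V.map h := by
        rw [h3]
        exact Submodule.mem_map.2 ⟨v, hv, rfl⟩
      obtain ⟨w, hw, hw2⟩ := Submodule.mem_map.1 h4
      rw [← hw2, ← Module.End.mul_apply, hh.2.1]
    by_cases hcase3 : ∃ h, IsHodgeElt g c h ∧ ∃ v ∈ V, cj h v ≠ h v
    · obtain ⟨h, hh, v₀, hv₀, hne⟩ := hcase3
      have hres : ∀ X ∈ g, ∀ v ∈ V, X v ∈ V := fun X hX v hv => hst X hX v hv
      let Zh : End k V := h.restrict (hres h hh.1)
      let Z : End k V := (cj h - h).restrict (hres _ (g.sub_mem (hcg h hh) hh.1))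
      have hZh : ∀ v : V, ((Zh v : V) : H) = h v := fun v => rfl
      have hZ : ∀ v : V, ((Z v : V) : H) = (cj h - h) v := fun v => rfl
      have hhh : ∀ v, h (h v) = h v := fun v => by rw [← Module.End.mul_apply, hh.2.1]
      have hZp : Z ∈ gp (gV g V) Zh := by
        refine mem_gp.2 ⟨⟨_, g.sub_mem (hcg h hh) hh.1, hZ⟩, ?_, ?_⟩
        · ext v
          rw [Module.End.mul_apply, hZh, hZ, LinearMap.sub_apply, map_sub, hcase2 h hh v v.2, hhh]
        · ext v
          rw [Module.End.mul_apply, hZ, LinearMap.sub_apply, hZh, hcase' h hh v v.2, hhh, sub_self]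
          rfl
      have hZ0 : Z ≠ 0 := by
        intro h0
        apply hne
        have h1 := hZ ⟨v₀, hv₀⟩
        rw [h0] at h1
        have h2 : (0 : H) = cj h v₀ - h v₀ := h1
        exact (sub_eq_zero.1 h2.symm)
      have hrk : finrank k (LinearMap.range Z) ≤ finrank k (V.map ((u : End k H) - a • 1)) := by
        rw [← finrank_map_eq_range hZ]
        have h1 : V.map (cj h - h) ≤ V.map ((u : End k H) * h * (↑u⁻¹ : End k H) * (1 - h)) := by
          rintro _ ⟨v, hv, rfl⟩
          refine Submodule.mem_map.2 ⟨v, hv, ?_⟩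
          rw [← hcj, Module.End.mul_apply, LinearMap.sub_apply, Module.End.one_apply, map_sub,
            hcase' h hh v hv, LinearMap.sub_apply]
        exact (Submodule.finrank_mono h1).trans (hrank h (1 - h) (by rw [mul_sub, mul_one, hh.2.1, sub_self])
          (fun v hv => V.sub_mem hv (hst h hh.1 v hv)))
      exact oddSimple_of_elt hg hVs hs hA hh hZh (Or.inl hZp) hZ0 (not_isExc_of_lt (by omega))
    · -- `u` is a scalar on `V`
      exfalso
      push Not at hcase3
      have hcomm : ∀ X ∈ g, ∀ v ∈ V, (u : End k H) (X v) = X ((u : End k H) v) := by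
        intro X hX
        have hX' := hg.span X hX
        clear hX
        induction hX' using Submodule.span_induction with
        | mem h hh =>
          intro v hv
          have h1 := hcase3 h hh ((u : End k H) v) (hu1 v hv)
          rw [hcj, Module.End.mul_apply, huu, Module.End.mul_apply] at h1
          exact h1
        | zero => intro v _; simp
        | add X Y _ _ h1 h2 =>
          intro v hv
          rw [LinearMap.add_apply, LinearMap.add_apply, map_add, h1 v hv, h2 v hv]
        | smul s X _ h1 =>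
          intro v hv
          rw [LinearMap.smul_apply, LinearMap.smul_apply, map_smul, h1 v hv]
      have hnt : Nontrivial V := Submodule.nontrivial_iff_ne_bot.2 hVs.1
      obtain ⟨s, hs'⟩ := Module.End.exists_eigenvalue ((u : End k H).restrict hu1 : End k V)
      obtain ⟨w, hw⟩ := hs'.exists_hasEigenvector
      have hw1 : (u : End k H) (w : H) = s • (w : H) := congrArg Subtype.val hw.apply_eq_smul
      let U : Submodule k H := V ⊓ LinearMap.ker ((u : End k H) - s • 1)
      have hU : U = V := by
        rcases hVs.2.2 U inf_le_left (by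
          rintro X hX x ⟨hx1, hx2⟩
          refine ⟨hst X hX x hx1, ?_⟩
          have h1 : (u : End k H) x = s • x := by
            have := LinearMap.mem_ker.1 hx2
            rw [LinearMap.sub_apply, LinearMap.smul_apply, Module.End.one_apply, sub_eq_zero] at this
            exact this
          refine LinearMap.mem_ker.2 ?_
          rw [LinearMap.sub_apply, LinearMap.smul_apply, Module.End.one_apply, hcomm X hX x hx1, h1, map_smul,
            sub_self]) with h0 | h0
        · exfalso
          have h1 : (w : H) ∈ U := ⟨w.2, LinearMap.mem_ker.2 (by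
            rw [LinearMap.sub_apply, LinearMap.smul_apply, Module.End.one_apply, hw1, sub_self])⟩
          rw [h0, Submodule.mem_bot] at h1
          exact hw.2 (Subtype.ext h1)
        · exact h0
      have husc : ∀ v ∈ V, (u : End k H) v = s • v := by
        intro v hv
        rw [← hU] at hv
        have := LinearMap.mem_ker.1 hv.2
        rw [LinearMap.sub_apply, LinearMap.smul_apply, Module.End.one_apply, sub_eq_zero] at this
        exact this
      by_cases hsa : s = a
      · have h1 : V.map ((u : End k H) - a • 1) = ⊥ := by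
          rw [eq_bot_iff]
          rintro _ ⟨v, hv, rfl⟩
          rw [LinearMap.sub_apply, LinearMap.smul_apply, Module.End.one_apply, husc v hv, hsa, sub_self]
          exact Submodule.zero_mem _
        rw [h1, finrank_bot] at hr0
        omega
      · have h1 : V.map ((u : End k H) - a • 1) = V := by
          apply le_antisymm
          · rintro _ ⟨v, hv, rfl⟩
            rw [LinearMap.sub_apply, LinearMap.smul_apply, Module.End.one_apply]
            exact V.sub_mem (hu1 v hv) (V.smul_mem a hv)
          · intro v hv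
            refine Submodule.mem_map.2 ⟨(s - a)⁻¹ • v, V.smul_mem _ hv, ?_⟩
            rw [map_smul, LinearMap.sub_apply, LinearMap.smul_apply, Module.End.one_apply, husc v hv, ← sub_smul,
              smul_smul, inv_mul_cancel₀ (sub_ne_zero.2 hsa), one_smul]
        rw [h1] at hr hr0
        omega

/-- The subspaces in `OddPlace` are odd. -/
theorem OddPlace.oddSimple (hg : IsGaloisAlg g c) (hV : OddPlace g c V) : OddSimple g c V := by
  obtain ⟨hVs, ⟨β, hs⟩, hA, ⟨_, ⟨h₁, h₁', hh₁, hh₁', hconj, rfl⟩, hr0, hre⟩ | ⟨u, a, hu, hr0, hr⟩⟩ := hV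
  · exact oddSimple_of_pair hg hVs hs hA hh₁ hh₁'.1 hh₁'.2.1 (InnerConj.of_conjIn hconj) hr0 hre
  · exact oddSimple_of_group hg hVs hs hA hu hr0 hr

end Pool.Agent.Lib.MP_021685_agN
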